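import Mathlib

/-!
# A lower bound for the dimension of the centraliser
-/

namespace Pool.Agent.Q296.FP

open Module

variable {K V : Type*} [Field K] [AddCommGroup V] [Module K V]

/-- the restriction of `f` to its range -/
def resR (f : V →ₗ[K] V) : LinearMap.range f →ₗ[K] LinearMap.range f :=
  f.rangeRestrict ∘ₗ (LinearMap.range f).subtype

lemma resR_comp (f : V →ₗ[K] V) : resR f ∘ₗ f.rangeRestrict = f.rangeRestrict ∘ₗ f := by
  ext v
  rfl

/-- The subspace of endomorphisms which commute with `f`. -/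
def cent (f : V →ₗ[K] V) : Submodule K (V →ₗ[K] V) where
  carrier := {y | f ∘ₗ y = y ∘ₗ f}
  add_mem' := by
    intro a b ha hb
    simp only [Set.mem_ofPred_eq] at *
    rw [LinearMap.comp_add, LinearMap.add_comp, ha, hb]
  zero_mem' := by simp
  smul_mem' := by
    intro c a ha
    simp only [Set.mem_ofPred_eq] at *
    rw [LinearMap.comp_smul, LinearMap.smul_comp, ha]

lemma mem_cent {f y : V →ₗ[K] V} : y ∈ cent f ↔ f ∘ₗ y = y ∘ₗ f := Iff.rfl

/-- the parametrisation of a subspace of the centraliser -/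
def par (f : V →ₗ[K] V) (s : LinearMap.range f →ₗ[K] V) (p : V →ₗ[K] LinearMap.range f) :
    (((LinearMap.range f ⧸ LinearMap.range (resR f)) →ₗ[K] LinearMap.ker (resR f)) ×
      ((V ⧸ LinearMap.range f) →ₗ[K] LinearMap.ker f) × K) →ₗ[K] (V →ₗ[K] V) where
  toFun t :=
    s ∘ₗ ((LinearMap.ker (resR f)).subtype ∘ₗ t.1 ∘ₗ (LinearMap.range (resR f)).mkQ) ∘ₗ
        f.rangeRestrict +
      (LinearMap.range f).subtype ∘ₗ
        ((LinearMap.ker (resR f)).subtype ∘ₗ t.1 ∘ₗ (LinearMap.range (resR f)).mkQ) ∘ₗ p +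
      (LinearMap.ker f).subtype ∘ₗ t.2.1 ∘ₗ (LinearMap.range f).mkQ + t.2.2 • LinearMap.id
  map_add' t u := by
    ext v
    simp only [Prod.fst_add, Prod.snd_add, LinearMap.add_comp, LinearMap.comp_add,
      LinearMap.add_apply, LinearMap.smul_apply, add_smul]
    abel
  map_smul' c t := by
    ext v
    simp only [Prod.smul_fst, Prod.smul_snd, LinearMap.smul_comp, LinearMap.comp_smul,
      LinearMap.add_apply, LinearMap.smul_apply, smul_add, RingHom.id_apply, smul_eq_mul,
      mul_smul]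

theorem cent_finrank_ge [FiniteDimensional K V] (f : V →ₗ[K] V) (h2 : f ∘ₗ f ≠ 0) :
    (finrank K V - finrank K (LinearMap.range f)) ^ 2 +
      (finrank K (LinearMap.range f) - finrank K (LinearMap.range (f ∘ₗ f))) ^ 2 + 1 ≤
      finrank K (cent f) := by
  obtain ⟨s, hs⟩ := f.rangeRestrict.exists_rightInverse_of_surjective
    (LinearMap.range_eq_top.mpr f.surjective_rangeRestrict)
  obtain ⟨p, hp⟩ := (LinearMap.range f).subtype.exists_leftInverse_of_injective
    (LinearMap.ker_eq_bot.mpr (Submodule.injective_subtype _))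
  have hfs : f ∘ₗ s = (LinearMap.range f).subtype := by
    ext v
    have := LinearMap.congr_fun hs v
    simpa using congrArg Subtype.val this
  have hpf : p ∘ₗ f = f.rangeRestrict := by
    ext v
    have := LinearMap.congr_fun hp (f.rangeRestrict v)
    simpa using congrArg Subtype.val this
  set A := LinearMap.range (resR f) with hA
  set B := LinearMap.ker (resR f) with hB
  -- the middle map kills
  have hm1 : ∀ a : (LinearMap.range f ⧸ A) →ₗ[K] B,
      (B.subtype ∘ₗ a ∘ₗ A.mkQ) ∘ₗ resR f = 0 := by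
    intro a
    ext v
    have : A.mkQ (resR f v) = 0 := by
      rw [Submodule.mkQ_apply, Submodule.Quotient.mk_eq_zero]
      exact LinearMap.mem_range_self _ _
    simp only [LinearMap.comp_apply, this, map_zero]
    rfl
  have hm2 : ∀ a : (LinearMap.range f ⧸ A) →ₗ[K] B,
      resR f ∘ₗ (B.subtype ∘ₗ a ∘ₗ A.mkQ) = 0 := by
    intro a
    ext v
    have : resR f (B.subtype ((a ∘ₗ A.mkQ) v)) = 0 := ((a ∘ₗ A.mkQ) v).2
    simp only [LinearMap.comp_apply] at this ⊢
    rw [this]
    rfl
  have hyf : ∀ t, par f s p t ∘ₗ f = (LinearMap.range f).subtype ∘ₗ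
      (B.subtype ∘ₗ t.1 ∘ₗ A.mkQ) ∘ₗ f.rangeRestrict + t.2.2 • f := by
    intro t
    have e1 : s ∘ₗ (B.subtype ∘ₗ t.1 ∘ₗ A.mkQ) ∘ₗ f.rangeRestrict ∘ₗ f = 0 := by
      rw [← resR_comp, ← LinearMap.comp_assoc _ _ (B.subtype ∘ₗ t.1 ∘ₗ A.mkQ), hm1,
        LinearMap.zero_comp, LinearMap.comp_zero]
    have e3 : (LinearMap.ker f).subtype ∘ₗ t.2.1 ∘ₗ (LinearMap.range f).mkQ ∘ₗ f = 0 := by
      rw [LinearMap.range_mkQ_comp, LinearMap.comp_zero, LinearMap.comp_zero]
    change (s ∘ₗ (B.subtype ∘ₗ t.1 ∘ₗ A.mkQ) ∘ₗ f.rangeRestrict +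
      (LinearMap.range f).subtype ∘ₗ (B.subtype ∘ₗ t.1 ∘ₗ A.mkQ) ∘ₗ p +
      (LinearMap.ker f).subtype ∘ₗ t.2.1 ∘ₗ (LinearMap.range f).mkQ +
        t.2.2 • LinearMap.id) ∘ₗ f = _
    rw [LinearMap.add_comp, LinearMap.add_comp, LinearMap.add_comp]
    simp only [LinearMap.comp_assoc] at e1 e3 ⊢
    rw [e1, e3, hpf, zero_add, add_zero, LinearMap.smul_comp, LinearMap.id_comp]
  have hfy : ∀ t, f ∘ₗ par f s p t = (LinearMap.range f).subtype ∘ₗ
      (B.subtype ∘ₗ t.1 ∘ₗ A.mkQ) ∘ₗ f.rangeRestrict + t.2.2 • f := by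
    intro t
    have e2 : f ∘ₗ (LinearMap.range f).subtype ∘ₗ (B.subtype ∘ₗ t.1 ∘ₗ A.mkQ) ∘ₗ p = 0 := by
      have : f ∘ₗ (LinearMap.range f).subtype = (LinearMap.range f).subtype ∘ₗ resR f := by
        ext v
        rfl
      rw [← LinearMap.comp_assoc, this, LinearMap.comp_assoc,
        ← LinearMap.comp_assoc p, hm2, LinearMap.zero_comp, LinearMap.comp_zero]
    have e3 : f ∘ₗ (LinearMap.ker f).subtype ∘ₗ t.2.1 ∘ₗ (LinearMap.range f).mkQ = 0 := by
      rw [← LinearMap.comp_assoc, LinearMap.comp_ker_subtype, LinearMap.zero_comp]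
    change f ∘ₗ (s ∘ₗ (B.subtype ∘ₗ t.1 ∘ₗ A.mkQ) ∘ₗ f.rangeRestrict +
      (LinearMap.range f).subtype ∘ₗ (B.subtype ∘ₗ t.1 ∘ₗ A.mkQ) ∘ₗ p +
      (LinearMap.ker f).subtype ∘ₗ t.2.1 ∘ₗ (LinearMap.range f).mkQ +
        t.2.2 • LinearMap.id) = _
    rw [LinearMap.comp_add, LinearMap.comp_add, LinearMap.comp_add, e2, e3,
      ← LinearMap.comp_assoc, hfs, add_zero, add_zero, LinearMap.comp_smul, LinearMap.comp_id]
  have hmem : ∀ t, par f s p t ∈ cent f := by
    intro t
    rw [mem_cent, hfy, hyf]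
  have hinj : Function.Injective (par f s p) := by
    refine (injective_iff_map_eq_zero _).mpr ?_
    intro t ht
    have e1 := hyf t
    rw [ht, LinearMap.zero_comp] at e1
    have e2 : t.2.2 • (f ∘ₗ f) = 0 := by
      have e3 := congrArg (fun y => y ∘ₗ f) e1
      simp only [LinearMap.zero_comp, LinearMap.add_comp, LinearMap.smul_comp] at e3
      rw [LinearMap.comp_assoc, LinearMap.comp_assoc, ← resR_comp,
        ← LinearMap.comp_assoc _ _ (B.subtype ∘ₗ t.1 ∘ₗ A.mkQ), hm1, LinearMap.zero_comp,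
        LinearMap.comp_zero, zero_add] at e3
      exact e3.symm
    have hc : t.2.2 = 0 := by
      rcases smul_eq_zero.mp e2 with h | h
      · exact h
      · exact absurd h h2
    rw [hc, zero_smul, add_zero] at e1
    have ha : t.1 = 0 := by
      apply LinearMap.ext
      intro q
      obtain ⟨w, rfl⟩ := A.mkQ_surjective q
      obtain ⟨v, rfl⟩ := f.surjective_rangeRestrict w
      have e3 := LinearMap.congr_fun e1 v
      simp only [LinearMap.zero_apply, LinearMap.comp_apply] at e3
      have e4 := Submodule.injective_subtype _ (e3.symm.trans (map_zero _).symm)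
      exact Submodule.injective_subtype _ (e4.trans (map_zero _).symm)
    have hk : t.2.1 = 0 := by
      have e3 : par f s p t = (LinearMap.ker f).subtype ∘ₗ t.2.1 ∘ₗ (LinearMap.range f).mkQ := by
        change s ∘ₗ (B.subtype ∘ₗ t.1 ∘ₗ A.mkQ) ∘ₗ f.rangeRestrict +
          (LinearMap.range f).subtype ∘ₗ (B.subtype ∘ₗ t.1 ∘ₗ A.mkQ) ∘ₗ p +
          (LinearMap.ker f).subtype ∘ₗ t.2.1 ∘ₗ (LinearMap.range f).mkQ +
            t.2.2 • LinearMap.id = _
        rw [ha, hc]
        simp
      rw [ht] at e3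
      apply LinearMap.ext
      intro q
      obtain ⟨w, rfl⟩ := (LinearMap.range f).mkQ_surjective q
      have e4 := LinearMap.congr_fun e3 w
      simp only [LinearMap.zero_apply, LinearMap.comp_apply] at e4
      exact Submodule.injective_subtype _ (e4.symm.trans (map_zero _).symm)
    ext1
    · exact ha
    · ext1
      · exact hk
      · exact hc
  have hle : finrank K (((LinearMap.range f ⧸ A) →ₗ[K] B) ×
      ((V ⧸ LinearMap.range f) →ₗ[K] LinearMap.ker f) × K) ≤ finrank K (cent f) := by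
    apply LinearMap.finrank_le_finrank_of_injective (f := (par f s p).codRestrict (cent f) hmem)
    intro a b hab
    exact hinj (congrArg Subtype.val hab)
  have hrange : finrank K A = finrank K (LinearMap.range (f ∘ₗ f)) := by
    have : LinearMap.range (f ∘ₗ f) = A.map (LinearMap.range f).subtype := by
      rw [hA, ← LinearMap.range_comp]
      apply le_antisymm
      · rintro _ ⟨v, rfl⟩
        exact ⟨⟨f v, LinearMap.mem_range_self f v⟩, rfl⟩
      · rintro _ ⟨⟨w, v, rfl⟩, rfl⟩
        exact ⟨v, rfl⟩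
    rw [this]
    exact (LinearEquiv.finrank_eq
      (Submodule.equivMapOfInjective _ (Submodule.injective_subtype _) A))
  have hB' : finrank K A + finrank K B = finrank K (LinearMap.range f) :=
    LinearMap.finrank_range_add_finrank_ker (resR f)
  have hA' : finrank K (LinearMap.range f ⧸ A) + finrank K A = finrank K (LinearMap.range f) :=
    Submodule.finrank_quotient_add_finrank A
  have hk' : finrank K (LinearMap.range f) + finrank K (LinearMap.ker f) = finrank K V :=
    LinearMap.finrank_range_add_finrank_ker f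
  have hq' : finrank K (V ⧸ LinearMap.range f) + finrank K (LinearMap.range f) = finrank K V :=
    Submodule.finrank_quotient_add_finrank _
  rw [finrank_prod, finrank_prod, finrank_linearMap, finrank_linearMap, finrank_self] at hle
  have e1 : finrank K V - finrank K (LinearMap.range f) = finrank K (LinearMap.ker f) := by omega
  have e2 : finrank K (V ⧸ LinearMap.range f) = finrank K (LinearMap.ker f) := by omega
  have e3 : finrank K (LinearMap.range f) - finrank K (LinearMap.range (f ∘ₗ f)) =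
      finrank K B := by omega
  have e4 : finrank K (LinearMap.range f ⧸ A) = finrank K B := by omega
  rw [e1, e3]
  rw [e2, e4] at hle
  nlinarith [hle]

end Pool.Agent.Q296.FP
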