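import Mathlib

/-!
# Frobenius parabolic subalgebras of `sl_n`: definitions
-/

namespace Pool.Agent.Q296.FP

open Module

attribute [local instance 100] LieRing.ofAssociativeRing

/-- The set `A` of the indices of the simple roots of the Levi subalgebra: `A` is
`{2, 4, …, 2k}` for `n = 2k + 1`, and for even `n` it consists of the even numbers between `0` and
`n / 2` and of the odd numbers between `n / 2` and `n`, that is, `{2, 4, …, 2p-2, 2p+1, …, 4p-1}`
for `n = 4p` and `{2, 4, …, 2p, 2p+3, …, 4p+1}` for `n = 4p + 2`. -/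
def rootSet (n : ℕ) : Set ℕ :=
  {a | 0 < a ∧ a < n ∧ ((Odd n ∧ Even a) ∨ (Even n ∧ 2 * a < n ∧ Even a) ∨
    (Even n ∧ n < 2 * a ∧ Odd a))}

/-- The standard parabolic subalgebra of `sl_n` whose Levi subalgebra has the simple roots `α_a`,
`a ∈ A`: the matrices `x` of trace `0` with `x_(ij) = 0` whenever `i > j` and one of the simple
roots `α_a` in the support of the root of `E_(ij)` is not in `A`. The rows and columns are
numbered by `0, …, n - 1`, so that these are the simple roots `α_a` with `j + 1 ≤ a ≤ i`. -/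
def stdParabolic (K : Type*) [Field K] (n : ℕ) (A : Set ℕ) :
    LieSubalgebra K (Matrix (Fin n) (Fin n) K) where
  carrier := {x | x.trace = 0 ∧
    ∀ i j : Fin n, (∃ a, (j : ℕ) < a ∧ a ≤ i ∧ a ∉ A) → x i j = 0}
  add_mem' := by
    intro x y hx hy
    refine ⟨by rw [Matrix.trace_add, hx.1, hy.1, add_zero], ?_⟩
    intro i j h
    rw [Matrix.add_apply, hx.2 i j h, hy.2 i j h, add_zero]
  zero_mem' := ⟨Matrix.trace_zero _ _, fun i j _ => rfl⟩
  smul_mem' := by
    intro c x hx
    refine ⟨by rw [Matrix.trace_smul, hx.1, smul_zero], ?_⟩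
    intro i j h
    rw [Matrix.smul_apply, hx.2 i j h, smul_zero]
  lie_mem' := by
    intro x y hx hy
    have key : ∀ x y : Matrix (Fin n) (Fin n) K,
        (∀ i j : Fin n, (∃ a, (j : ℕ) < a ∧ a ≤ i ∧ a ∉ A) → x i j = 0) →
        (∀ i j : Fin n, (∃ a, (j : ℕ) < a ∧ a ≤ i ∧ a ∉ A) → y i j = 0) →
        ∀ i j : Fin n, (∃ a, (j : ℕ) < a ∧ a ≤ i ∧ a ∉ A) → (x * y) i j = 0 := by
      rintro x y hx hy i j ⟨a, h1, h2, h3⟩
      rw [Matrix.mul_apply]
      apply Finset.sum_eq_zero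
      intro l _
      by_cases hl : (l : ℕ) < a
      · rw [hx i l ⟨a, hl, h2, h3⟩, zero_mul]
      · rw [hy l j ⟨a, h1, not_lt.mp hl, h3⟩, mul_zero]
    refine ⟨?_, ?_⟩
    · rw [Ring.lie_def, Matrix.trace_sub, Matrix.trace_mul_comm, sub_self]
    · intro i j h
      rw [Ring.lie_def, Matrix.sub_apply, key x y hx.2 hy.2 i j h, key y x hy.2 hx.2 i j h,
        sub_zero]

variable {K : Type*} [Field K] {n : ℕ}

/-- `q` is a subalgebra of `sl_n` which contains a Borel subalgebra `g 𝔟 g⁻¹`, where `𝔟` consists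
of the upper triangular matrices of trace `0`. -/
def IsParabolic (q : LieSubalgebra K (Matrix (Fin n) (Fin n) K)) : Prop :=
  q ≤ LieAlgebra.SpecialLinear.sl (Fin n) K ∧
    ∃ g : (Matrix (Fin n) (Fin n) K)ˣ, ∀ x : Matrix (Fin n) (Fin n) K, x.trace = 0 →
      (∀ i j, j < i → x i j = 0) → (g : Matrix (Fin n) (Fin n) K) * x * (↑g⁻¹ : Matrix (Fin n) (Fin n) K) ∈ q

/-- The Lie algebra `q` is Frobenius, that is, its index is `0`: there is a linear form `ξ` on `q`
with `q^ξ = 0`. -/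
def IsFrobenius (q : LieSubalgebra K (Matrix (Fin n) (Fin n) K)) : Prop :=
  ∃ ξ : q →ₗ[K] K, ∀ x : q, (∀ y : q, ξ ⁅x, y⁆ = 0) → x = 0

/-- The centraliser of `e` in `sl_n`. -/
def slCent (e : Matrix (Fin n) (Fin n) K) : Submodule K (Matrix (Fin n) (Fin n) K) where
  carrier := {x | x.trace = 0 ∧ ⁅e, x⁆ = 0}
  add_mem' := by
    intro x y hx hy
    refine ⟨by rw [Matrix.trace_add, hx.1, hy.1, add_zero], ?_⟩
    rw [lie_add, hx.2, hy.2, add_zero]
  zero_mem' := ⟨Matrix.trace_zero _ _, lie_zero e⟩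
  smul_mem' := by
    intro c x hx
    refine ⟨by rw [Matrix.trace_smul, hx.1, smul_zero], ?_⟩
    rw [lie_smul, hx.2, smul_zero]

/-- `e` is nilpotent of Jordan type `l` (a list of positive integers with sum `n`): the rank of
`e ^ j` is `∑ max (l_i - j, 0)` for all `j`. -/
def HasJordanType (e : Matrix (Fin n) (Fin n) K) (l : List ℕ) : Prop :=
  ∀ j : ℕ, (e ^ j).rank = (l.map (fun a => a - j)).sum

/-- The partition `λ` of the question: `(3, 2^(k-2), 1)` for `n = 2k` and `(3, 2^(k-1))` for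
`n = 2k + 1`. -/
def lam (n : ℕ) : List ℕ :=
  if Even n then 3 :: (List.replicate (n / 2 - 2) 2 ++ [1]) else 3 :: List.replicate (n / 2 - 1) 2

end Pool.Agent.Q296.FP
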