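import Pool.Agent.Q296.FP.Final

/-!
# The dimension of the parabolic subalgebra
-/

namespace Pool.Agent.Q296.FP

open Module

attribute [local instance 100] LieRing.ofAssociativeRing

variable {K : Type*} [Field K] {n : ℕ}

lemma arith3 (n : ℕ) (hn : 3 ≤ n) (P Q : ℕ) (h : P + (n / 2) ^ 2 + ((n + 1) / 2 - 1) ^ 2 = n * n)
    (hQ : Q + 1 = P) : Q = (n * (n + 1) / 2 - 1) + (n - 1) / 2 := by
  obtain ⟨c, hc⟩ : ∃ c, c = n / 2 := ⟨_, rfl⟩
  obtain ⟨d, hd⟩ : ∃ d, d = (n + 1) / 2 - 1 := ⟨_, rfl⟩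
  have h1 : (n - 1) / 2 = d := by omega
  have h2 : n = c + d + 1 := by omega
  have h3 : d + 1 = c ∨ d = c := by omega
  rw [← hc, ← hd] at h
  rw [h1]
  have h4 : n * (n + 1) + 2 * d = 2 * P := by
    rw [h2] at h ⊢
    rcases h3 with h3 | h3
    · rw [← h3] at h ⊢
      nlinarith
    · rw [h3] at h ⊢
      nlinarith
  have h5 : 3 * 4 ≤ n * (n + 1) := Nat.mul_le_mul hn (by omega)
  omega

theorem std_finrank [CharZero K] (hn : 3 ≤ n) :
    finrank K (stdParabolic K n (rootSet n)) = (n * (n + 1) / 2 - 1) + (n - 1) / 2 := by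
  have hn0 : (n : K) ≠ 0 := natCast_ne hn
  apply arith3 n hn _ _ (path_main K hn).2.2.2
  -- the trace on the path parabolic
  let T : parM K n →ₗ[K] K := (Matrix.traceLinearMap (Fin n) K K) ∘ₗ (parM K n).subtype
  have hT : LinearMap.range T = ⊤ := by
    rw [LinearMap.range_eq_top]
    intro c
    refine ⟨(c / n) • ⟨1, one_mem_parM⟩, ?_⟩
    rw [map_smul]
    change (c / n) • (1 : Matrix (Fin n) (Fin n) K).trace = c
    rw [Matrix.trace_one, Fintype.card_fin, smul_eq_mul, div_mul_cancel₀ _ hn0]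
  have h1 := LinearMap.finrank_range_add_finrank_ker T
  rw [hT, finrank_top, finrank_self] at h1
  rw [← h1, add_comm]
  congr 1
  apply LinearEquiv.finrank_eq
  refine LinearEquiv.ofBijective
    (LinearMap.codRestrict (LinearMap.ker T)
      (LinearMap.codRestrict (parM K n)
        ((tau K n).symm.toLinearMap ∘ₗ (stdParabolic K n (rootSet n)).toSubmodule.subtype)
        (fun x => ((mem_std_iff _).mp x.2).2)) (fun x => ?_)) ⟨?_, ?_⟩
  · rw [LinearMap.mem_ker]
    change ((tau K n).symm (x : Matrix (Fin n) (Fin n) K)).trace = 0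
    rw [← tau_trace, AlgEquiv.apply_symm_apply]
    exact ((mem_std_iff _).mp x.2).1
  · intro x y h
    have h2 : (tau K n).symm (x : Matrix (Fin n) (Fin n) K) = (tau K n).symm y :=
      congrArg (fun z => ((z : parM K n) : Matrix (Fin n) (Fin n) K)) (congrArg Subtype.val h)
    exact Subtype.ext ((tau K n).symm.injective h2)
  · rintro ⟨⟨z, hz⟩, hz0⟩
    have hz1 : z.trace = 0 := hz0
    refine ⟨⟨tau K n z, ?_⟩, ?_⟩
    · change tau K n z ∈ stdParabolic K n (rootSet n)
      rw [mem_std_iff, tau_trace, AlgEquiv.symm_apply_apply]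
      exact ⟨hz1, hz⟩
    · apply Subtype.ext
      apply Subtype.ext
      exact (tau K n).symm_apply_apply z

end Pool.Agent.Q296.FP
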