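import Pool.Agent.Q296.FP.Path2
import Pool.Agent.Q296.FP.Defs

/-!
# The theorem in standard coordinates
-/

namespace Pool.Agent.Q296.FP

open Module

attribute [local instance 100] LieRing.ofAssociativeRing

variable {K : Type*} [Field K] {n : ℕ}

/-- the position of the `s`-th vertex of the path -/
def pos (n s : ℕ) : ℕ :=
  if s % 4 = 0 then 2 * (s / 4) else if s % 4 = 1 then n - 1 - 2 * (s / 4)
  else if s % 4 = 2 then n - 2 - 2 * (s / 4) else 2 * (s / 4) + 1

lemma pos_lt {s : ℕ} (h : s < n) : pos n s < n := by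
  unfold pos
  split_ifs <;> omega

lemma pos_inj {s t : ℕ} (hs : s < n) (ht : t < n) (h : pos n s = pos n t) : s = t := by
  unfold pos at h
  split_ifs at h <;> omega

/-- the path order as a permutation -/
noncomputable def perm (n : ℕ) : Fin n ≃ Fin n :=
  Equiv.ofBijective (fun s => ⟨pos n s, pos_lt s.isLt⟩) (Finite.injective_iff_bijective.mp (by
    intro s t h
    rw [Fin.mk.injEq] at h
    exact Fin.ext (pos_inj s.isLt t.isLt h)))

lemma perm_val (s : Fin n) : (perm n s : ℕ) = pos n s := rfl

lemma mem_rootSet {n a : ℕ} : a ∈ rootSet n ↔ 0 < a ∧ a < n ∧ ((n % 2 = 1 ∧ a % 2 = 0) ∨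
    (n % 2 = 0 ∧ 2 * a < n ∧ a % 2 = 0) ∨ (n % 2 = 0 ∧ n < 2 * a ∧ a % 2 = 1)) := by
  unfold rootSet
  simp only [Set.mem_ofPred_eq, Nat.odd_iff, Nat.even_iff]

lemma blk_lt_iff {s t : ℕ} (hs : s < n) (ht : t < n) :
    blk n t < blk n s ↔ ∃ a, pos n t < a ∧ a ≤ pos n s ∧ a ∉ rootSet n := by
  constructor
  · intro h
    by_cases h1 : s % 4 = 0 ∨ s % 4 = 3
    · -- both left
      refine ⟨2 * ((t + 1) / 4) + 1, ?_, ?_, ?_⟩
      · unfold blk at h
        unfold pos
        split_ifs at h ⊢ <;> omega
      · unfold blk at h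
        unfold pos
        split_ifs at h ⊢ <;> omega
      · rw [mem_rootSet]
        unfold blk at h
        split_ifs at h <;> omega
    · by_cases h2 : t % 4 = 0 ∨ t % 4 = 3
      · by_cases h3 : n % 2 = 0
        · refine ⟨n / 2, ?_, ?_, ?_⟩
          · unfold pos
            split_ifs <;> omega
          · unfold pos
            split_ifs <;> omega
          · rw [mem_rootSet]
            omega
        · refine ⟨2 * ((t + 1) / 4) + 1, ?_, ?_, ?_⟩
          · unfold pos
            split_ifs <;> omega
          · unfold pos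
            split_ifs <;> omega
          · rw [mem_rootSet]
            omega
      · refine ⟨n - 2 - 2 * (s / 4), ?_, ?_, ?_⟩
        · unfold blk at h
          unfold pos
          split_ifs at h ⊢ <;> omega
        · unfold pos
          split_ifs <;> omega
        · rw [mem_rootSet]
          unfold blk at h
          rw [if_neg h1, if_neg h2] at h
          omega
  · rintro ⟨a, h1, h2, h3⟩
    rw [mem_rootSet] at h3
    unfold pos at h1 h2
    unfold blk
    split_ifs at h1 h2 ⊢ <;> omega

/-- the change of coordinates -/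
noncomputable def tau (K : Type*) [Field K] (n : ℕ) :
    Matrix (Fin n) (Fin n) K ≃ₐ[K] Matrix (Fin n) (Fin n) K :=
  Matrix.reindexAlgEquiv K K (perm n)

lemma tau_apply (x : Matrix (Fin n) (Fin n) K) (s t : Fin n) :
    tau K n x (perm n s) (perm n t) = x s t := by
  simp [tau]

lemma tau_symm_apply (x : Matrix (Fin n) (Fin n) K) (s t : Fin n) :
    (tau K n).symm x s t = x (perm n s) (perm n t) := by
  rw [← tau_apply ((tau K n).symm x), AlgEquiv.apply_symm_apply]

lemma tau_trace (x : Matrix (Fin n) (Fin n) K) : (tau K n x).trace = x.trace := by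
  unfold Matrix.trace
  rw [← Equiv.sum_comp (perm n)]
  apply Finset.sum_congr rfl
  intro s _
  exact tau_apply x s s

lemma tau_rank (x : Matrix (Fin n) (Fin n) K) : (tau K n x).rank = x.rank := by
  simp only [tau, Matrix.coe_reindexAlgEquiv]
  exact Matrix.rank_reindex _ _ _

/-- the matrix `e` -/
noncomputable def eStd (K : Type*) [Field K] (n : ℕ) : Matrix (Fin n) (Fin n) K :=
  tau K n (eMat K n)

lemma mem_std_iff (x : Matrix (Fin n) (Fin n) K) :
    x ∈ stdParabolic K n (rootSet n) ↔ x.trace = 0 ∧ (tau K n).symm x ∈ parM K n := by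
  have h0 : x ∈ stdParabolic K n (rootSet n) ↔ x.trace = 0 ∧
      ∀ i j : Fin n, (∃ a, (j : ℕ) < a ∧ a ≤ i ∧ a ∉ rootSet n) → x i j = 0 := Iff.rfl
  rw [h0, mem_parM]
  constructor
  · rintro ⟨h1, h2⟩
    refine ⟨h1, ?_⟩
    intro s t hst
    rw [tau_symm_apply]
    apply h2
    rw [perm_val, perm_val]
    exact (blk_lt_iff s.isLt t.isLt).mp hst
  · rintro ⟨h1, h2⟩
    refine ⟨h1, ?_⟩
    intro i j hij
    have h3 := h2 ((perm n).symm i) ((perm n).symm j)
    rw [tau_symm_apply, Equiv.apply_symm_apply, Equiv.apply_symm_apply] at h3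
    apply h3
    rw [blk_lt_iff ((perm n).symm i).isLt ((perm n).symm j).isLt, ← perm_val, ← perm_val,
      Equiv.apply_symm_apply, Equiv.apply_symm_apply]
    exact hij

lemma eStd_pow (j : ℕ) : eStd K n ^ j = tau K n (eMat K n ^ j) := by
  unfold eStd
  rw [map_pow]

theorem eStd_type (hn : 3 ≤ n) : HasJordanType (eStd K n) (lam n) := by
  have hsum : ∀ j : ℕ, ((lam n).map (fun a => a - j)).sum =
      if j = 0 then n else if j = 1 then (n + 1) / 2 else if j = 2 then 1 else 0 := by
    intro j
    unfold lam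
    by_cases h : Even n
    · rw [if_pos h]
      rw [Nat.even_iff] at h
      simp only [List.map_cons, List.map_append, List.map_replicate, List.map_nil, List.sum_cons,
        List.sum_append, List.sum_replicate, List.sum_nil, smul_eq_mul, add_zero]
      rcases (by omega : j = 0 ∨ j = 1 ∨ j = 2 ∨ 3 ≤ j) with h1 | h1 | h1 | h1
      · subst h1
        simp
        omega
      · subst h1
        simp
        omega
      · subst h1
        simp
      · rw [if_neg (by omega), if_neg (by omega), if_neg (by omega), show 3 - j = 0 by omega,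
          show 2 - j = 0 by omega, show 1 - j = 0 by omega]
        simp
    · rw [if_neg h]
      rw [Nat.even_iff] at h
      simp only [List.map_cons, List.map_replicate, List.sum_cons, List.sum_replicate,
        smul_eq_mul]
      rcases (by omega : j = 0 ∨ j = 1 ∨ j = 2 ∨ 3 ≤ j) with h1 | h1 | h1 | h1
      · subst h1
        simp
        omega
      · subst h1
        simp
        omega
      · subst h1
        simp
      · rw [if_neg (by omega), if_neg (by omega), if_neg (by omega), show 3 - j = 0 by omega,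
          show 2 - j = 0 by omega]
        simp
  intro j
  rw [hsum, eStd_pow, tau_rank]
  rcases (by omega : j = 0 ∨ j = 1 ∨ j = 2 ∨ 3 ≤ j) with h1 | h1 | h1 | h1
  · subst h1
    rw [if_pos rfl, pow_zero, Matrix.rank_one, Fintype.card_fin]
  · subst h1
    rw [if_neg (by omega), if_pos rfl, pow_one]
    exact (path_main K hn).1
  · subst h1
    rw [if_neg (by omega), if_neg (by omega), if_pos rfl, pow_two]
    exact eMat_sq_rank hn
  · rw [if_neg (by omega), if_neg (by omega), if_neg (by omega)]
    obtain ⟨k, rfl⟩ : ∃ k, j = 3 + k := ⟨j - 3, by omega⟩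
    have h3 : eMat K n ^ (3 + k) = 0 := by
      rw [pow_add, pow_succ, pow_two, eMat_cube, zero_mul]
    rw [h3, Matrix.rank_zero]

lemma natCast_ne [CharZero K] (hn : 3 ≤ n) : (n : K) ≠ 0 := by
  exact_mod_cast (by omega : n ≠ 0)

lemma mem_slCent {e x : Matrix (Fin n) (Fin n) K} :
    x ∈ slCent e ↔ x.trace = 0 ∧ e * x = x * e := by
  have : x ∈ slCent e ↔ x.trace = 0 ∧ ⁅e, x⁆ = 0 := Iff.rfl
  rw [this, Ring.lie_def, sub_eq_zero]

lemma scalar_of_trace [CharZero K] (hn : 3 ≤ n) {x : Matrix (Fin n) (Fin n) K} {c : K}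
    (h : (tau K n).symm x = c • 1) (ht : x.trace = 0) : x = 0 := by
  have h1 : x = tau K n (c • 1) := by rw [← h, AlgEquiv.apply_symm_apply]
  rw [h1, tau_trace, Matrix.trace_smul, Matrix.trace_one, Fintype.card_fin, smul_eq_mul,
    mul_eq_zero] at ht
  rcases ht with ht | ht
  · rw [h1, ht, zero_smul, map_zero]
  · exact absurd ht (natCast_ne hn)

theorem std_inf [CharZero K] (hn : 3 ≤ n) :
    slCent (eStd K n) ⊓ (stdParabolic K n (rootSet n)).toSubmodule = ⊥ := by
  rw [eq_bot_iff]
  rintro x ⟨hx1, hx2⟩
  have hx2' : x ∈ stdParabolic K n (rootSet n) := hx2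
  have hx1' : x ∈ slCent (eStd K n) := hx1
  rw [mem_std_iff] at hx2'
  rw [mem_slCent] at hx1'
  have h1 : (tau K n).symm x ∈ centM (eMat K n) ⊓ parM K n := by
    refine ⟨?_, hx2'.2⟩
    change (tau K n).symm x ∈ centM (eMat K n)
    rw [mem_centM]
    apply (tau K n).injective
    rw [map_mul, map_mul, AlgEquiv.apply_symm_apply]
    exact hx1'.2
  rw [(path_main K hn).2.1, Submodule.mem_span_singleton] at h1
  obtain ⟨c, hc⟩ := h1
  rw [Submodule.mem_bot]
  exact scalar_of_trace hn hc.symm hx2'.1

lemma one_mem_parM : (1 : Matrix (Fin n) (Fin n) K) ∈ parM K n := by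
  intro s t h
  rw [Matrix.one_apply_ne]
  intro hst
  rw [hst] at h
  exact lt_irrefl _ h

lemma mem_sl {x : Matrix (Fin n) (Fin n) K} :
    x ∈ LieAlgebra.SpecialLinear.sl (Fin n) K ↔ x.trace = 0 := Iff.rfl

theorem std_sup [CharZero K] (hn : 3 ≤ n) :
    slCent (eStd K n) ⊔ (stdParabolic K n (rootSet n)).toSubmodule =
      (LieAlgebra.SpecialLinear.sl (Fin n) K).toSubmodule := by
  apply le_antisymm
  · apply sup_le
    · intro x hx
      exact mem_sl.mpr (mem_slCent.mp hx).1
    · intro x hx
      exact mem_sl.mpr ((mem_std_iff x).mp hx).1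
  · intro x hx
    have hx0 : x.trace = 0 := mem_sl.mp hx
    have h1 : (tau K n).symm x ∈ centM (eMat K n) ⊔ parM K n := by
      rw [(path_main K hn).2.2.1]
      exact Submodule.mem_top
    rw [Submodule.mem_sup] at h1
    obtain ⟨y, hy, z, hz, hyz⟩ := h1
    have hn0 : (n : K) ≠ 0 := natCast_ne hn
    have htr : ∀ c : K, (c • (1 : Matrix (Fin n) (Fin n) K)).trace = c * n := by
      intro c
      rw [Matrix.trace_smul, Matrix.trace_one, Fintype.card_fin, smul_eq_mul]
    have hxs : y.trace + z.trace = 0 := by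
      rw [← Matrix.trace_add, hyz, ← tau_trace, AlgEquiv.apply_symm_apply, hx0]
    rw [Submodule.mem_sup]
    refine ⟨tau K n (y - (y.trace / n) • 1), ?_, tau K n (z + (y.trace / n) • 1), ?_, ?_⟩
    · rw [mem_slCent]
      refine ⟨?_, ?_⟩
      · rw [tau_trace, Matrix.trace_sub, htr, div_mul_cancel₀ _ hn0, sub_self]
      · unfold eStd
        rw [← map_mul, ← map_mul]
        congr 1
        rw [mul_sub, sub_mul, mul_smul_comm, smul_mul_assoc, mul_one, one_mul, mem_centM.mp hy]
    · change tau K n (z + (y.trace / n) • 1) ∈ stdParabolic K n (rootSet n)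
      rw [mem_std_iff]
      refine ⟨?_, ?_⟩
      · rw [tau_trace, Matrix.trace_add, htr, div_mul_cancel₀ _ hn0, add_comm, hxs]
      · rw [AlgEquiv.symm_apply_apply]
        exact Submodule.add_mem _ hz (Submodule.smul_mem _ _ one_mem_parM)
    · rw [← map_add, sub_add_add_cancel, hyz, AlgEquiv.apply_symm_apply]

lemma single_mem_parM {s t : Fin n} (h : blk n t ≤ blk n s) :
    (Matrix.single t s (1 : K)) ∈ parM K n := by
  intro a b hab
  rw [Matrix.single_apply, if_neg]
  rintro ⟨rfl, rfl⟩
  exact absurd h (not_le.mpr hab)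

theorem std_frobenius [CharZero K] (hn : 3 ≤ n) :
    IsFrobenius (stdParabolic K n (rootSet n)) := by
  set p := stdParabolic K n (rootSet n) with hp
  refine ⟨(Matrix.traceLinearMap (Fin n) K K) ∘ₗ (LinearMap.mulLeft K (eStd K n)) ∘ₗ
    p.toSubmodule.subtype, ?_⟩
  intro x hx
  have hxm := (mem_std_iff (x : Matrix (Fin n) (Fin n) K)).mp x.2
  set x0 := (tau K n).symm (x : Matrix (Fin n) (Fin n) K) with hx0
  -- the pairing
  have hpair : ∀ y : Matrix (Fin n) (Fin n) K, y.trace = 0 → y ∈ parM K n →
      ((eMat K n * x0 - x0 * eMat K n) * y).trace = 0 := by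
    intro y hy0 hy
    have hym : tau K n y ∈ p := by
      rw [mem_std_iff, tau_trace, AlgEquiv.symm_apply_apply]
      exact ⟨hy0, hy⟩
    have h1 := hx ⟨tau K n y, hym⟩
    have h2 : (eStd K n * ((x : Matrix (Fin n) (Fin n) K) * tau K n y -
        tau K n y * (x : Matrix (Fin n) (Fin n) K))).trace = 0 := h1
    have h3 : (x : Matrix (Fin n) (Fin n) K) = tau K n x0 := by
      rw [hx0, AlgEquiv.apply_symm_apply]
    rw [h3] at h2
    unfold eStd at h2
    rw [← map_mul, ← map_mul, ← map_sub, ← map_mul, tau_trace, mul_sub, Matrix.trace_sub] at h2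
    have h4 : (x0 * eMat K n * y).trace = (eMat K n * (y * x0)).trace := by
      rw [mul_assoc, Matrix.trace_mul_comm, mul_assoc]
    rw [sub_mul, Matrix.trace_sub, h4, mul_assoc]
    exact h2
  have hR : Reg x0 := by
    constructor
    · exact hxm.2
    · intro s t hst
      rw [← sub_eq_zero, ← Matrix.sub_apply]
      by_cases h : s = t
      · subst h
        -- all diagonal entries are equal
        have hd : ∀ u : Fin n, (eMat K n * x0 - x0 * eMat K n) s s =
            (eMat K n * x0 - x0 * eMat K n) u u := by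
          intro u
          have h1 := hpair (Matrix.single s s 1 - Matrix.single u u 1)
            (by rw [Matrix.trace_sub, Matrix.trace_single_eq_same, Matrix.trace_single_eq_same,
              sub_self])
            (Submodule.sub_mem _ (single_mem_parM le_rfl) (single_mem_parM le_rfl))
          rw [mul_sub, Matrix.trace_sub, Matrix.trace_mul_single, Matrix.trace_mul_single,
            sub_eq_zero] at h1
          simpa using h1
        have htr : (eMat K n * x0 - x0 * eMat K n).trace = 0 := by
          rw [Matrix.trace_sub, Matrix.trace_mul_comm, sub_self]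
        have h2 : (eMat K n * x0 - x0 * eMat K n).trace =
            n * (eMat K n * x0 - x0 * eMat K n) s s := by
          unfold Matrix.trace
          simp only [Matrix.diag_apply]
          rw [Finset.sum_congr rfl (fun u _ => (hd u).symm), Finset.sum_const, Finset.card_univ,
            Fintype.card_fin, nsmul_eq_mul]
        rw [htr] at h2
        rcases mul_eq_zero.mp h2.symm with h3 | h3
        · exact absurd h3 (natCast_ne hn)
        · exact h3
      · have h1 := hpair (Matrix.single t s 1) (Matrix.trace_single_eq_of_ne _ _ _ (Ne.symm h))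
          (single_mem_parM hst)
        rw [Matrix.trace_mul_single] at h1
        simpa using h1
  obtain ⟨c, hc⟩ := hR.scalar
  apply Subtype.ext
  exact scalar_of_trace hn hc hxm.1

theorem std_parabolic (K : Type*) [Field K] (n : ℕ) (A : Set ℕ) :
    IsParabolic (stdParabolic K n A) := by
  refine ⟨fun x hx => hx.1, 1, ?_⟩
  intro x hx h
  rw [inv_one, Units.val_one, one_mul, mul_one]
  refine ⟨hx, ?_⟩
  rintro i j ⟨a, h1, h2, _⟩
  exact h i j (Fin.lt_def.mpr (by omega))

end Pool.Agent.Q296.FP
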