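import Mathlib

/-!
# The form defined by the path matrix is regular on the path parabolic
-/

namespace Pool.Agent.Q296.FP

/-- entries of the matrix `e` in path coordinates: `E s l` iff the entry in row `s`, column `l`
is `1` -/
def E (s l : ℕ) : Prop :=
  (l % 4 = 0 ∧ (s = l + 1 ∨ (s % 4 = 3 ∧ s < l))) ∨ (l % 4 = 1 ∧ s % 4 = 2 ∧ l < s) ∨
    (l % 4 = 3 ∧ s + 1 = l)

instance : DecidableRel E := fun s l => by unfold E; infer_instance

/-- the position of the block of `s` -/
def blk (n s : ℕ) : ℕ := if s % 4 = 0 ∨ s % 4 = 3 then (s + 1) / 4 else n - s / 4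

variable {K : Type*} [Field K] {n : ℕ}

/-- the matrix `e` in path coordinates -/
def eMat (K : Type*) [Field K] (n : ℕ) : Matrix (Fin n) (Fin n) K :=
  fun s l => if E s l then 1 else 0

lemma eMat_pos {s l : Fin n} (h : E s l) : eMat K n s l = 1 := if_pos h

lemma eMat_neg {s l : Fin n} (h : ¬ E s l) : eMat K n s l = 0 := if_neg h

/-- zero extension -/
def ext (x : Matrix (Fin n) (Fin n) K) (s t : ℕ) : K :=
  if h : s < n ∧ t < n then x ⟨s, h.1⟩ ⟨t, h.2⟩ else 0

lemma ext_fin (x : Matrix (Fin n) (Fin n) K) (s t : Fin n) : ext x s t = x s t := by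
  simp [ext]

lemma ext_of {x : Matrix (Fin n) (Fin n) K} {s t : ℕ} (hs : s < n) (ht : t < n) :
    ext x s t = x ⟨s, hs⟩ ⟨t, ht⟩ := by
  simp [ext, hs, ht]

lemma ext_zero_left {x : Matrix (Fin n) (Fin n) K} {s : ℕ} (t : ℕ) (hs : n ≤ s) :
    ext x s t = 0 := by
  simp [ext, not_lt.mpr hs]

lemma ext_zero_right {x : Matrix (Fin n) (Fin n) K} (s : ℕ) {t : ℕ} (ht : n ≤ t) :
    ext x s t = 0 := by
  simp [ext, not_lt.mpr ht]

lemma sum_ite_val (f : Fin n → K) (a : ℕ) :
    (∑ l : Fin n, if (l : ℕ) = a then f l else 0) = if h : a < n then f ⟨a, h⟩ else 0 := by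
  by_cases h : a < n
  · rw [dif_pos h, Finset.sum_eq_single (⟨a, h⟩ : Fin n)]
    · simp
    · intro b _ hb
      rw [if_neg]
      intro hba
      exact hb (Fin.ext hba)
    · intro hh
      exact absurd (Finset.mem_univ _) hh
  · rw [dif_neg h, Finset.sum_eq_zero]
    intro l _
    rw [if_neg]
    intro hl
    exact h (hl ▸ l.isLt)

/-- The hypothesis on `x`: it lies in the path parabolic and `[e, x]` lies in its nilradical. -/
structure Reg (x : Matrix (Fin n) (Fin n) K) : Prop where
  par : ∀ s t : Fin n, blk n t < blk n s → x s t = 0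
  com : ∀ s t : Fin n, blk n t ≤ blk n s → (eMat K n * x) s t = (x * eMat K n) s t

/-- left hand side of the equations -/
def lhs (x : Matrix (Fin n) (Fin n) K) (s t : ℕ) : K :=
  if s % 4 = 0 then 0 else if s % 4 = 1 then ext x (s - 1) t
  else if s % 4 = 2 then ext x (s - 1) t + ext x (s + 1) t else ext x (s + 1) t

/-- right hand side of the equations -/
def rhs (x : Matrix (Fin n) (Fin n) K) (s t : ℕ) : K :=
  if t % 4 = 0 then ext x s (t + 1) + (if t = 0 then 0 else ext x s (t - 1))
  else if t % 4 = 1 then ext x s (t + 1)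
  else if t % 4 = 2 then 0 else ext x s (t - 1)

lemma mul_left_eq {x : Matrix (Fin n) (Fin n) K}
    (hx : ∀ s t : Fin n, blk n t < blk n s → x s t = 0) (s t : Fin n) (hst : blk n t ≤ blk n s) :
    (eMat K n * x) s t = lhs x s t := by
  have key : ∀ a : ℕ, ext x a t = ∑ l : Fin n, if (l : ℕ) = a then x l t else 0 := by
    intro a
    rw [sum_ite_val]
    by_cases h : a < n
    · simp [ext, h]
    · simp [ext, h]
  rw [Matrix.mul_apply]
  have hs := s.isLt
  unfold lhs
  rcases (by omega : (s : ℕ) % 4 = 0 ∨ (s : ℕ) % 4 = 1 ∨ (s : ℕ) % 4 = 2 ∨ (s : ℕ) % 4 = 3)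
    with h | h | h | h
  · rw [if_pos h]
    apply Finset.sum_eq_zero
    intro l _
    have : ¬ E s l := by unfold E; omega
    rw [eMat_neg this, zero_mul]
  · rw [if_neg (by omega), if_pos h, key]
    apply Finset.sum_congr rfl
    intro l _
    by_cases hl : (l : ℕ) = s - 1
    · have : E s l := by unfold E; omega
      rw [eMat_pos this, one_mul, if_pos hl]
    · have : ¬ E s l := by unfold E; omega
      rw [eMat_neg this, zero_mul, if_neg hl]
  · rw [if_neg (by omega), if_neg (by omega), if_pos h, key, key, ← Finset.sum_add_distrib]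
    apply Finset.sum_congr rfl
    intro l _
    have hl' := l.isLt
    by_cases hl : (l : ℕ) = s - 1
    · have : E s l := by unfold E; omega
      have h2 : ¬ ((l : ℕ) = s + 1) := by omega
      rw [eMat_pos this, one_mul, if_pos hl, if_neg (by omega), add_zero]
    · by_cases hl2 : (l : ℕ) = s + 1
      · have : E s l := by unfold E; omega
        rw [eMat_pos this, one_mul, if_neg hl, if_pos hl2, zero_add]
      · rw [if_neg hl, if_neg hl2, add_zero]
        by_cases hE : E s l
        · have : blk n t < blk n l := by
            unfold E at hE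
            refine lt_of_le_of_lt hst ?_
            unfold blk
            rw [if_neg (by omega), if_neg (by omega)]
            omega
          rw [hx l t this, mul_zero]
        · rw [eMat_neg hE, zero_mul]
  · rw [if_neg (by omega), if_neg (by omega), if_neg (by omega), key]
    apply Finset.sum_congr rfl
    intro l _
    have hl' := l.isLt
    by_cases hl : (l : ℕ) = s + 1
    · have : E s l := by unfold E; omega
      rw [eMat_pos this, one_mul, if_pos hl]
    · rw [if_neg hl]
      by_cases hE : E s l
      · have : blk n t < blk n l := by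
          unfold E at hE
          refine lt_of_le_of_lt hst ?_
          unfold blk
          rw [if_pos (by omega), if_pos (by omega)]
          omega
        rw [hx l t this, mul_zero]
      · rw [eMat_neg hE, zero_mul]

lemma mul_right_eq {x : Matrix (Fin n) (Fin n) K}
    (hx : ∀ s t : Fin n, blk n t < blk n s → x s t = 0) (s t : Fin n) (hst : blk n t ≤ blk n s) :
    (x * eMat K n) s t = rhs x s t := by
  have key : ∀ a : ℕ, ext x s a = ∑ l : Fin n, if (l : ℕ) = a then x s l else 0 := by
    intro a
    rw [sum_ite_val]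
    by_cases h : a < n
    · simp [ext, h]
    · simp [ext, h]
  rw [Matrix.mul_apply]
  have ht := t.isLt
  unfold rhs
  rcases (by omega : (t : ℕ) % 4 = 0 ∨ (t : ℕ) % 4 = 1 ∨ (t : ℕ) % 4 = 2 ∨ (t : ℕ) % 4 = 3)
    with h | h | h | h
  · rw [if_pos h]
    by_cases h0 : (t : ℕ) = 0
    · rw [if_pos h0, add_zero, key]
      apply Finset.sum_congr rfl
      intro l _
      by_cases hl : (l : ℕ) = t + 1
      · have : E l t := by unfold E; omega
        rw [eMat_pos this, mul_one, if_pos hl]
      · have : ¬ E l t := by unfold E; omega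
        rw [eMat_neg this, mul_zero, if_neg hl]
    · rw [if_neg h0, key, key, ← Finset.sum_add_distrib]
      apply Finset.sum_congr rfl
      intro l _
      have hl' := l.isLt
      by_cases hl : (l : ℕ) = t + 1
      · have : E l t := by unfold E; omega
        rw [eMat_pos this, mul_one, if_pos hl, if_neg (by omega), add_zero]
      · by_cases hl2 : (l : ℕ) = t - 1
        · have : E l t := by unfold E; omega
          rw [eMat_pos this, mul_one, if_neg hl, if_pos hl2, zero_add]
        · rw [if_neg hl, if_neg hl2, add_zero]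
          by_cases hE : E l t
          · have : blk n l < blk n s := by
              unfold E at hE
              refine lt_of_lt_of_le ?_ hst
              unfold blk
              rw [if_pos (by omega), if_pos (by omega)]
              omega
            rw [hx s l this, zero_mul]
          · rw [eMat_neg hE, mul_zero]
  · rw [if_neg (by omega), if_pos h, key]
    apply Finset.sum_congr rfl
    intro l _
    have hl' := l.isLt
    by_cases hl : (l : ℕ) = t + 1
    · have : E l t := by unfold E; omega
      rw [eMat_pos this, mul_one, if_pos hl]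
    · rw [if_neg hl]
      by_cases hE : E l t
      · have : blk n l < blk n s := by
          unfold E at hE
          refine lt_of_lt_of_le ?_ hst
          unfold blk
          rw [if_neg (by omega), if_neg (by omega)]
          omega
        rw [hx s l this, zero_mul]
      · rw [eMat_neg hE, mul_zero]
  · rw [if_neg (by omega), if_neg (by omega), if_pos h]
    apply Finset.sum_eq_zero
    intro l _
    have : ¬ E l t := by unfold E; omega
    rw [eMat_neg this, mul_zero]
  · rw [if_neg (by omega), if_neg (by omega), if_neg (by omega), key]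
    apply Finset.sum_congr rfl
    intro l _
    by_cases hl : (l : ℕ) = t - 1
    · have : E l t := by unfold E; omega
      rw [eMat_pos this, mul_one, if_pos hl]
    · have : ¬ E l t := by unfold E; omega
      rw [eMat_neg this, mul_zero, if_neg hl]

/-- the equations on the zero extension -/
lemma Reg.eqn {x : Matrix (Fin n) (Fin n) K} (h : Reg x) (s t : ℕ) (hs : s < n) (ht : t < n)
    (hst : blk n t ≤ blk n s) : lhs x s t = rhs x s t := by
  have h1 := mul_left_eq h.par ⟨s, hs⟩ ⟨t, ht⟩ hst
  have h2 := mul_right_eq h.par ⟨s, hs⟩ ⟨t, ht⟩ hst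
  rw [← h1, ← h2]
  exact h.com ⟨s, hs⟩ ⟨t, ht⟩ hst

lemma Reg.par' {x : Matrix (Fin n) (Fin n) K} (h : Reg x) (s t : ℕ) (hst : s < n → t < n →
    blk n t < blk n s) : ext x s t = 0 := by
  by_cases hs : s < n
  · by_cases ht : t < n
    · rw [ext_of hs ht]
      exact h.par ⟨s, hs⟩ ⟨t, ht⟩ (hst hs ht)
    · exact ext_zero_right s (not_lt.mp ht)
  · exact ext_zero_left t (not_lt.mp hs)

end Pool.Agent.Q296.FP
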