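import Pool.Agent.Q296.FP.Kill

/-!
# Regular elements are scalar
-/

namespace Pool.Agent.Q296.FP

variable {K : Type*} [Field K] {n : ℕ}

/-- The rows and the columns with index `< a` are those of a scalar matrix. -/
structure Diag (x : Matrix (Fin n) (Fin n) K) (a : ℕ) : Prop where
  off : ∀ s t, (s < a ∨ t < a) → s ≠ t → ext x s t = 0
  on : ∀ s, s < a → s < n → ext x s s = ext x 0 0

lemma Reg.step {x : Matrix (Fin n) (Fin n) K} (h : Reg x) {a : ℕ} (ha : a % 4 = 0)
    (D : Diag x a) : Diag x (a + 4) := by
  have big : ∀ s t, n ≤ s ∨ n ≤ t → ext x s t = 0 := by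
    intro s t hst
    rcases hst with hs | ht
    · exact ext_zero_left t hs
    · exact ext_zero_right s ht
  -- column `a`
  have cola : ∀ t, t ≠ a → ext x t a = 0 := by
    intro t ht
    by_cases h1 : t < a
    · exact D.off t a (Or.inl h1) ht
    · apply h.par'
      intro h2 h3
      unfold blk
      rw [if_pos (Or.inl ha)]
      split_ifs with h4
      · omega
      · omega
  -- column `a + 1`
  have eq1 : ∀ i, a ≤ i → i < n → lhs x i a = rhs x i a := by
    intro i hi hin
    apply h.eqn i a hin (by omega)
    unfold blk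
    rw [if_pos (Or.inl ha)]
    split_ifs with h4
    · omega
    · omega
  have rhs1 : ∀ i, a ≤ i → i < n → rhs x i a = ext x i (a + 1) := by
    intro i hi hin
    unfold rhs
    rw [if_pos ha]
    split_ifs with h0
    · rw [add_zero]
    · rw [D.off i (a - 1) (Or.inr (by omega)) (by omega), add_zero]
  have cola1 : ∀ i, i ≠ a + 1 → ext x i (a + 1) = 0 := by
    intro i hi
    by_cases h1 : i < a
    · exact D.off i (a + 1) (Or.inl h1) (by omega)
    by_cases h2 : n ≤ i
    · exact big _ _ (Or.inl h2)
    rw [← rhs1 i (by omega) (by omega), ← eq1 i (by omega) (by omega)]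
    unfold lhs
    split_ifs with h3 h4 h5
    · rfl
    · exact cola _ (by omega)
    · rw [cola _ (by omega), cola _ (by omega), add_zero]
    · exact cola _ (by omega)
  have d1 : a + 1 < n → ext x (a + 1) (a + 1) = ext x a a := by
    intro h1
    rw [← rhs1 (a + 1) (by omega) (by omega), ← eq1 (a + 1) (by omega) (by omega)]
    unfold lhs
    rw [if_neg (by omega), if_pos (by omega), Nat.add_sub_cancel]
  have da : a < n → ext x a a = ext x 0 0 := by
    intro h1
    by_cases h0 : a = 0
    · rw [h0]
    · have e1 : lhs x (a - 1) a = rhs x (a - 1) a := by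
        apply h.eqn (a - 1) a (by omega) h1
        unfold blk
        rw [if_pos (Or.inl ha), if_pos (by omega)]
        omega
      unfold lhs rhs at e1
      rw [if_neg (by omega), if_neg (by omega), if_neg (by omega), if_pos ha, if_neg h0,
        D.off (a - 1) (a + 1) (Or.inl (by omega)) (by omega), zero_add,
        show a - 1 + 1 = a by omega] at e1
      rw [e1]
      exact D.on (a - 1) (by omega) (by omega)
  -- row `a + 1` up to one entry
  have r1 : ∀ l, l ≠ a + 1 → l ≠ a + 2 → ext x (a + 1) l = 0 := by
    intro l hl1 hl2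
    by_cases h1 : l < a
    · exact D.off _ _ (Or.inr h1) (by omega)
    apply h.par'
    intro h2 h3
    unfold blk
    rw [if_neg (by omega : ¬ ((a + 1) % 4 = 0 ∨ (a + 1) % 4 = 3))]
    split_ifs with h4
    · omega
    · omega
  have eq2 : ∀ j, a ≤ j → j < n → a + 1 < n → ext x a j = rhs x (a + 1) j := by
    intro j hj hjn h1
    have e1 : lhs x (a + 1) j = rhs x (a + 1) j := by
      apply h.eqn (a + 1) j h1 hjn
      unfold blk
      rw [if_neg (by omega : ¬ ((a + 1) % 4 = 0 ∨ (a + 1) % 4 = 3))]
      split_ifs with h4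
      · omega
      · omega
    rw [← e1]
    unfold lhs
    rw [if_neg (by omega), if_pos (by omega), Nat.add_sub_cancel]
  have x12 : ext x (a + 1) (a + 2) = 0 := by
    by_cases h1 : n ≤ a + 2
    · exact big _ _ (Or.inr h1)
    have e1 := eq2 (a + 1) (by omega) (by omega) (by omega)
    rw [cola1 a (by omega)] at e1
    unfold rhs at e1
    rw [if_neg (by omega), if_pos (by omega)] at e1
    exact e1.symm
  have rowa1 : ∀ l, l ≠ a + 1 → ext x (a + 1) l = 0 := by
    intro l hl
    by_cases h1 : l = a + 2
    · rw [h1, x12]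
    · exact r1 l hl h1
  have rowa : ∀ j, j ≠ a → ext x a j = 0 := by
    intro j hj
    by_cases h1 : j < a
    · exact D.off _ _ (Or.inr h1) (by omega)
    by_cases h2 : n ≤ j
    · exact big _ _ (Or.inr h2)
    rw [eq2 j (by omega) (by omega) (by omega)]
    unfold rhs
    split_ifs with h3 h4 h5 h6
    · omega
    · rw [rowa1 _ (by omega), rowa1 _ (by omega), add_zero]
    · exact rowa1 _ (by omega)
    · rfl
    · exact rowa1 _ (by omega)
  -- row `a + 2`
  have rowa2 : ∀ l, l ≠ a + 2 → ext x (a + 2) l = 0 := by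
    intro l hl
    by_cases h0 : l = a + 1
    · rw [h0]
      exact cola1 _ (by omega)
    by_cases h1 : l < a
    · exact D.off _ _ (Or.inr h1) (by omega)
    apply h.par'
    intro h2 h3
    unfold blk
    rw [if_neg (by omega : ¬ ((a + 2) % 4 = 0 ∨ (a + 2) % 4 = 3))]
    split_ifs with h4
    · omega
    · omega
  have eq3 : ∀ j, a ≤ j → j < n → a + 2 < n →
      ext x (a + 1) j + ext x (a + 3) j = rhs x (a + 2) j := by
    intro j hj hjn h1
    have e1 : lhs x (a + 2) j = rhs x (a + 2) j := by
      apply h.eqn (a + 2) j h1 hjn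
      unfold blk
      rw [if_neg (by omega : ¬ ((a + 2) % 4 = 0 ∨ (a + 2) % 4 = 3))]
      split_ifs with h4
      · omega
      · omega
    rw [← e1]
    unfold lhs
    rw [if_neg (by omega), if_neg (by omega), if_pos (by omega)]
    rfl
  have d2 : a + 2 < n → ext x (a + 2) (a + 2) = ext x (a + 1) (a + 1) := by
    intro h1
    have e1 := eq3 (a + 1) (by omega) (by omega) h1
    rw [cola1 (a + 3) (by omega), add_zero] at e1
    rw [e1]
    unfold rhs
    rw [if_neg (by omega), if_pos (by omega)]
  have d3 : a + 3 < n → ext x (a + 3) (a + 3) = ext x (a + 2) (a + 2) := by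
    intro h1
    have e1 := eq3 (a + 3) (by omega) (by omega) (by omega)
    rw [rowa1 (a + 3) (by omega), zero_add] at e1
    rw [e1]
    unfold rhs
    rw [if_neg (by omega), if_neg (by omega), if_neg (by omega)]
    rfl
  have rowa3 : ∀ j, j ≠ a + 3 → ext x (a + 3) j = 0 := by
    intro j hj
    by_cases h1 : j < a
    · exact D.off _ _ (Or.inr h1) (by omega)
    by_cases h2 : n ≤ j
    · exact big _ _ (Or.inr h2)
    by_cases h3 : n ≤ a + 3
    · exact big _ _ (Or.inl h3)
    by_cases h4 : j = a + 1
    · rw [h4]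
      exact cola1 _ (by omega)
    have e1 := eq3 j (by omega) (by omega) (by omega)
    rw [rowa1 j h4, zero_add] at e1
    rw [e1]
    unfold rhs
    split_ifs with h3 h4 h5 h6
    · rw [rowa2 _ (by omega), add_zero]
    · rw [rowa2 _ (by omega), rowa2 _ (by omega), add_zero]
    · exact rowa2 _ (by omega)
    · rfl
    · exact rowa2 _ (by omega)
  -- columns `a + 2`, `a + 3`
  have c3 : ∀ l, l ≠ a + 3 → l ≠ a + 4 → ext x l (a + 3) = 0 := by
    intro l hl1 hl2
    by_cases h0 : l = a
    · rw [h0]
      exact rowa _ (by omega)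
    by_cases h1 : l < a
    · exact D.off _ _ (Or.inl h1) (by omega)
    apply h.par'
    intro h2 h3
    unfold blk
    rw [if_pos (by omega : ((a + 3) % 4 = 0 ∨ (a + 3) % 4 = 3))]
    split_ifs with h4
    · omega
    · omega
  have eq4 : ∀ i, a + 1 ≤ i → i < n → a + 3 < n → lhs x i (a + 3) = ext x i (a + 2) := by
    intro i hi hin h1
    have e1 : lhs x i (a + 3) = rhs x i (a + 3) := by
      apply h.eqn i (a + 3) hin h1
      unfold blk
      rw [if_pos (by omega : ((a + 3) % 4 = 0 ∨ (a + 3) % 4 = 3))]
      split_ifs with h4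
      · omega
      · omega
    rw [e1]
    unfold rhs
    rw [if_neg (by omega), if_neg (by omega), if_neg (by omega)]
    rfl
  have x43 : ext x (a + 4) (a + 3) = 0 := by
    by_cases h1 : n ≤ a + 4
    · exact big _ _ (Or.inl h1)
    have e1 := eq4 (a + 3) (by omega) (by omega) (by omega)
    rw [rowa3 (a + 2) (by omega)] at e1
    unfold lhs at e1
    rw [if_neg (by omega), if_neg (by omega), if_neg (by omega)] at e1
    exact e1
  have cola3 : ∀ l, l ≠ a + 3 → ext x l (a + 3) = 0 := by
    intro l hl
    by_cases h1 : l = a + 4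
    · rw [h1, x43]
    · exact c3 l hl h1
  have cola2 : ∀ i, i ≠ a + 2 → ext x i (a + 2) = 0 := by
    intro i hi
    by_cases h1 : i < a
    · exact D.off _ _ (Or.inl h1) (by omega)
    by_cases h2 : i = a
    · rw [h2]
      exact rowa _ (by omega)
    by_cases h3 : i = a + 1
    · rw [h3]
      exact rowa1 _ (by omega)
    by_cases h4 : n ≤ i
    · exact big _ _ (Or.inl h4)
    rw [← eq4 i (by omega) (by omega) (by omega)]
    unfold lhs
    split_ifs with h5 h6 h7
    · rfl
    · exact cola3 _ (by omega)
    · rw [cola3 _ (by omega), cola3 _ (by omega), add_zero]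
    · exact cola3 _ (by omega)
  constructor
  · intro s t hst hne
    by_cases h1 : s < a
    · exact D.off _ _ (Or.inl h1) hne
    by_cases h2 : t < a
    · exact D.off _ _ (Or.inr h2) hne
    rcases hst with hs | ht
    · rcases (by omega : s = a ∨ s = a + 1 ∨ s = a + 2 ∨ s = a + 3) with h3 | h3 | h3 | h3
      · rw [h3]; exact rowa _ (by omega)
      · rw [h3]; exact rowa1 _ (by omega)
      · rw [h3]; exact rowa2 _ (by omega)
      · rw [h3]; exact rowa3 _ (by omega)
    · rcases (by omega : t = a ∨ t = a + 1 ∨ t = a + 2 ∨ t = a + 3) with h3 | h3 | h3 | h3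
      · rw [h3]; exact cola _ (by omega)
      · rw [h3]; exact cola1 _ (by omega)
      · rw [h3]; exact cola2 _ (by omega)
      · rw [h3]; exact cola3 _ (by omega)
  · intro s hs hsn
    by_cases h1 : s < a
    · exact D.on s h1 hsn
    rcases (by omega : s = a ∨ s = a + 1 ∨ s = a + 2 ∨ s = a + 3) with h3 | h3 | h3 | h3
    · rw [h3]; exact da (by omega)
    · rw [h3, d1 (by omega)]; exact da (by omega)
    · rw [h3, d2 (by omega), d1 (by omega)]; exact da (by omega)
    · rw [h3, d3 (by omega), d2 (by omega), d1 (by omega)]; exact da (by omega)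

lemma Reg.diag {x : Matrix (Fin n) (Fin n) K} (h : Reg x) (m : ℕ) : Diag x (4 * m) := by
  induction m with
  | zero =>
    constructor
    · intro s t hst _
      omega
    · intro s hs _
      omega
  | succ m ih =>
    rw [show 4 * (m + 1) = 4 * m + 4 by omega]
    exact h.step (a := 4 * m) (by omega) ih

/-- Elements of the path parabolic whose bracket with `e` lies in the nilradical are scalar. -/
theorem Reg.scalar {x : Matrix (Fin n) (Fin n) K} (h : Reg x) : ∃ c : K, x = c • 1 := by
  refine ⟨ext x 0 0, ?_⟩
  ext s t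
  have D := h.diag n
  have hs := s.isLt
  rw [Matrix.smul_apply, Matrix.one_apply]
  split_ifs with hst
  · rw [hst, ← ext_fin x t t, D.on t (by omega) t.isLt, smul_eq_mul, mul_one]
  · rw [← ext_fin x s t, D.off s t (Or.inl (by omega)) (fun hh => hst (Fin.ext hh)), smul_zero]

end Pool.Agent.Q296.FP
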