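import Pool.Agent.Q296.FP.Semi2
import Pool.Agent.Q296.FP.Defs

/-!
# The least dimension of a Frobenius parabolic subalgebra: lower bound
-/

namespace Pool.Agent.Q296.FP

open Module

attribute [local instance 100] LieRing.ofAssociativeRing

variable {K : Type*} [Field K] {n : ℕ}

lemma finrank_le_inf_ker {V : Type*} [AddCommGroup V] [Module K V] [FiniteDimensional K V]
    (S : Submodule K V) (τ : V →ₗ[K] K) :
    finrank K S ≤ finrank K (S ⊓ LinearMap.ker τ : Submodule K V) + 1 := by
  have h1 := Submodule.finrank_sup_add_finrank_inf_eq S (LinearMap.ker τ)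
  have h2 := LinearMap.finrank_range_add_finrank_ker τ
  have h3 : finrank K (LinearMap.range τ) ≤ 1 := by
    rw [← finrank_self K]
    exact Submodule.finrank_le _
  have h4 : finrank K (S ⊔ LinearMap.ker τ : Submodule K V) ≤ finrank K V :=
    Submodule.finrank_le _
  omega

lemma card_tri (n : ℕ) : n * (n + 1) ≤
    2 * (Finset.univ.filter (fun p : Fin n × Fin n => p.1 ≤ p.2)).card := by
  have h1 : (Finset.univ.filter (fun p : Fin n × Fin n => p.1 < p.2)).card =
      (Finset.univ.filter (fun p : Fin n × Fin n => p.2 < p.1)).card := by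
    apply Finset.card_bij (fun p _ => (p.2, p.1))
    · intro p hp
      rw [Finset.mem_filter] at hp ⊢
      exact ⟨Finset.mem_univ _, hp.2⟩
    · intro p _ q _ h
      rw [Prod.mk.injEq] at h
      exact Prod.ext h.2 h.1
    · intro p hp
      rw [Finset.mem_filter] at hp
      exact ⟨(p.2, p.1), by rw [Finset.mem_filter]; exact ⟨Finset.mem_univ _, hp.2⟩, rfl⟩
  have h2 : (Finset.univ.filter (fun p : Fin n × Fin n => p.1 ≤ p.2)).card =
      (Finset.univ.filter (fun p : Fin n × Fin n => p.1 < p.2)).card +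
        (Finset.univ.filter (fun p : Fin n × Fin n => p.1 = p.2)).card := by
    rw [← Finset.card_union_of_disjoint]
    · congr 1
      ext p
      simp only [Finset.mem_filter, Finset.mem_union, Finset.mem_univ, true_and]
      exact le_iff_lt_or_eq
    · rw [Finset.disjoint_filter]
      intro p _ h3 h4
      exact absurd h4 (ne_of_lt h3)
  have h3 : (Finset.univ.filter (fun p : Fin n × Fin n => p.1 ≤ p.2)).card +
      (Finset.univ.filter (fun p : Fin n × Fin n => p.2 < p.1)).card = n * n := by
    rw [← Finset.card_union_of_disjoint]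
    · rw [← Finset.filter_or, Finset.filter_true_of_mem, Finset.card_univ, Fintype.card_prod,
        Fintype.card_fin]
      intro p _
      exact le_or_gt p.1 p.2
    · rw [Finset.disjoint_filter]
      intro p _ h3 h4
      exact absurd h3 (not_le.mpr h4)
  have h4 : n ≤ (Finset.univ.filter (fun p : Fin n × Fin n => p.1 = p.2)).card := by
    have h5 : (Finset.univ : Finset (Fin n)).card ≤
        (Finset.univ.filter (fun p : Fin n × Fin n => p.1 = p.2)).card := by
      apply Finset.card_le_card_of_injOn (fun s => (s, s))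
      · intro s _
        rw [Finset.mem_coe, Finset.mem_filter]
        exact ⟨Finset.mem_univ _, rfl⟩
      · intro s _ t _ h
        exact congrArg Prod.fst h
    rwa [Finset.card_univ, Fintype.card_fin] at h5
  have h6 : n * (n + 1) = n * n + n := by ring
  omega

lemma up_finrank_ge (K : Type*) [Field K] (n : ℕ) :
    n * (n + 1) / 2 ≤ finrank K (up K n) := by
  let S := {p : Fin n × Fin n // p.1 ≤ p.2}
  let Φ : (S → K) →ₗ[K] Matrix (Fin n) (Fin n) K :=
    { toFun := fun c s t => if h : s ≤ t then c ⟨(s, t), h⟩ else 0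
      map_add' := by
        intro c d
        ext s t
        by_cases h : s ≤ t
        · simp [h]
        · simp [h]
      map_smul' := by
        intro a c
        ext s t
        by_cases h : s ≤ t
        · simp [h]
        · simp [h] }
  have hmem : ∀ c, Φ c ∈ up K n := by
    intro c s t h
    exact dif_neg (not_le.mpr h)
  have hinj : Function.Injective (Φ.codRestrict (up K n) hmem) := by
    intro c d h
    have h1 : Φ c = Φ d := congrArg Subtype.val h
    ext ⟨⟨s, t⟩, hst⟩
    have h2 := congrFun (congrFun h1 s) t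
    have h3 : ∀ c, Φ c s t = c ⟨(s, t), hst⟩ := fun c => dif_pos hst
    rw [h3, h3] at h2
    exact h2
  have h := LinearMap.finrank_le_finrank_of_injective hinj
  rw [Module.finrank_fintype_fun_eq_card, Fintype.card_subtype] at h
  have h4 := card_tri n
  omega

/-- the Borel subalgebra of upper triangular matrices of trace `0`, as a subspace -/
def bor (K : Type*) [Field K] (n : ℕ) : Submodule K (Matrix (Fin n) (Fin n) K) :=
  up K n ⊓ LinearMap.ker (Matrix.traceLinearMap (Fin n) K K)

lemma mem_bor {x : Matrix (Fin n) (Fin n) K} :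
    x ∈ bor K n ↔ (∀ i j : Fin n, j < i → x i j = 0) ∧ x.trace = 0 := Iff.rfl

/-- the stabiliser in the Borel subalgebra -/
def stab (f : Matrix (Fin n) (Fin n) K) : Submodule K (Matrix (Fin n) (Fin n) K) :=
  (LinearMap.ker (lowBr f)).map (up K n).subtype ⊓
    LinearMap.ker (Matrix.traceLinearMap (Fin n) K K)

lemma stab_finrank_ge [Infinite K] (f : Matrix (Fin n) (Fin n) K) :
    (n + 1) / 2 ≤ finrank K (stab f) + 1 := by
  refine le_trans ?_ (finrank_le_inf_ker _ _)
  rw [LinearEquiv.finrank_eq (Submodule.equivMapOfInjective _ (Submodule.injective_subtype _)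
    (LinearMap.ker (lowBr f))).symm]
  exact index_ge n f

lemma mem_stab {f x : Matrix (Fin n) (Fin n) K} (hx : x ∈ stab f) :
    x ∈ bor K n ∧ ∀ i j : Fin n, j ≤ i → (f * x - x * f) i j = 0 := by
  obtain ⟨⟨y, hy, rfl⟩, h2⟩ := hx
  exact ⟨⟨y.2, h2⟩, mem_ker_lowBr.mp hy⟩

/-- matrix of a linear form -/
def formM (η : Matrix (Fin n) (Fin n) K →ₗ[K] K) : Matrix (Fin n) (Fin n) K :=
  fun i j => η (Matrix.single j i 1)

lemma formM_apply (η : Matrix (Fin n) (Fin n) K →ₗ[K] K) (z : Matrix (Fin n) (Fin n) K) :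
    (formM η * z).trace = η z := by
  conv_rhs => rw [Matrix.matrix_eq_sum_single z]
  rw [map_sum]
  simp only [map_sum]
  unfold Matrix.trace
  simp only [Matrix.diag_apply, Matrix.mul_apply]
  rw [Finset.sum_comm]
  apply Finset.sum_congr rfl
  intro i _
  apply Finset.sum_congr rfl
  intro j _
  have : Matrix.single i j (z i j) = z i j • Matrix.single i j (1 : K) := by
    rw [Matrix.smul_single, smul_eq_mul, mul_one]
  rw [this, map_smul, smul_eq_mul, mul_comm]
  rfl

lemma trace_zero_of_stab {f x y : Matrix (Fin n) (Fin n) K}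
    (hx : ∀ i j : Fin n, j ≤ i → (f * x - x * f) i j = 0)
    (hy : ∀ i j : Fin n, j < i → y i j = 0) : (f * (x * y - y * x)).trace = 0 := by
  have h1 : (f * (x * y - y * x)).trace = ((f * x - x * f) * y).trace := by
    have h4 : (x * f * y).trace = (f * (y * x)).trace := by
      rw [mul_assoc, Matrix.trace_mul_comm, mul_assoc]
    rw [mul_sub, sub_mul, Matrix.trace_sub, Matrix.trace_sub, h4, mul_assoc]
  rw [h1]
  unfold Matrix.trace
  simp only [Matrix.diag_apply, Matrix.mul_apply]
  apply Finset.sum_eq_zero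
  intro i _
  apply Finset.sum_eq_zero
  intro j _
  rcases le_or_gt j i with h | h
  · rw [hx i j h, zero_mul]
  · rw [hy j i h, mul_zero]

theorem frob_finrank_ge [CharZero K] (hn : 1 ≤ n)
    (q : LieSubalgebra K (Matrix (Fin n) (Fin n) K)) (hp : IsParabolic q) (hf : IsFrobenius q) :
    (n * (n + 1) / 2 - 1) + (n - 1) / 2 ≤ finrank K q := by
  obtain ⟨_, g, hg⟩ := hp
  obtain ⟨ξ, hξ⟩ := hf
  -- extension of the linear form
  obtain ⟨Ξ, hΞ⟩ := LinearMap.exists_extend (p := q.toSubmodule) ξ
  let Ad : Matrix (Fin n) (Fin n) K →ₗ[K] Matrix (Fin n) (Fin n) K :=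
    (LinearMap.mulRight K (↑g⁻¹ : Matrix (Fin n) (Fin n) K)) ∘ₗ
      (LinearMap.mulLeft K (g : Matrix (Fin n) (Fin n) K))
  have hAd : ∀ x, Ad x = (g : Matrix (Fin n) (Fin n) K) * x * (↑g⁻¹ : Matrix (Fin n) (Fin n) K) :=
    fun x => rfl
  have hAdinj : Function.Injective Ad := by
    refine (injective_iff_map_eq_zero _).mpr ?_
    intro x hx
    rw [hAd] at hx
    have h1 : (↑g⁻¹ : Matrix (Fin n) (Fin n) K) * ((g : Matrix (Fin n) (Fin n) K) * x *
        (↑g⁻¹ : Matrix (Fin n) (Fin n) K)) * (g : Matrix (Fin n) (Fin n) K) = x := by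
      rw [← mul_assoc, ← mul_assoc, Units.inv_mul, one_mul, mul_assoc, Units.inv_mul, mul_one]
    rw [← h1, hx, mul_zero, zero_mul]
  have hAdbr : ∀ x y, Ad x * Ad y = Ad (x * y) := by
    intro x y
    rw [hAd, hAd, hAd]
    have : (g : Matrix (Fin n) (Fin n) K) * x * (↑g⁻¹ : Matrix (Fin n) (Fin n) K) *
        ((g : Matrix (Fin n) (Fin n) K) * y * (↑g⁻¹ : Matrix (Fin n) (Fin n) K)) =
        (g : Matrix (Fin n) (Fin n) K) * x * ((↑g⁻¹ : Matrix (Fin n) (Fin n) K) *
        (g : Matrix (Fin n) (Fin n) K)) * y * (↑g⁻¹ : Matrix (Fin n) (Fin n) K) := by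
      simp only [mul_assoc]
    rw [this, Units.inv_mul, mul_one]
    simp only [mul_assoc]
  let adq : bor K n →ₗ[K] q :=
    { toFun := fun x => ⟨Ad x, hg x (mem_bor.mp x.2).2 (mem_bor.mp x.2).1⟩
      map_add' := fun x y => Subtype.ext (map_add Ad (x : Matrix (Fin n) (Fin n) K) y)
      map_smul' := fun c x => Subtype.ext (map_smul Ad c (x : Matrix (Fin n) (Fin n) K)) }
  have hadq : Function.Injective adq := by
    intro x y h
    exact Subtype.ext (hAdinj (congrArg Subtype.val h))
  let η : Matrix (Fin n) (Fin n) K →ₗ[K] K := Ξ ∘ₗ Ad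
  have hkey : ∀ x y : bor K n, ξ ⁅adq x, adq y⁆ =
      (formM η * ((x : Matrix (Fin n) (Fin n) K) * y - y * x)).trace := by
    intro x y
    rw [formM_apply]
    have h1 : ξ ⁅adq x, adq y⁆ = Ξ ((⁅adq x, adq y⁆ : q) : Matrix (Fin n) (Fin n) K) :=
      (LinearMap.congr_fun hΞ _).symm
    rw [h1]
    change Ξ (Ad x * Ad y - Ad y * Ad x) = Ξ (Ad _)
    rw [hAdbr, hAdbr, ← map_sub]
  let B : q →ₗ[K] (bor K n →ₗ[K] K) :=
    LinearMap.mk₂ K (fun (x : q) (y : bor K n) => ξ ⁅x, adq y⁆)
      (fun x₁ x₂ y => by rw [add_lie, map_add])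
      (fun c x y => by rw [smul_lie, map_smul])
      (fun x y₁ y₂ => by rw [map_add, lie_add, map_add])
      (fun c x y => by rw [map_smul, lie_smul, map_smul])
  have hB : ∀ x y, B x y = ξ ⁅x, adq y⁆ := fun x y => rfl
  -- the form on `q` is nondegenerate
  let C : q →ₗ[K] (q →ₗ[K] K) :=
    LinearMap.mk₂ K (fun (x y : q) => ξ ⁅x, y⁆)
      (fun x₁ x₂ y => by rw [add_lie, map_add])
      (fun c x y => by rw [smul_lie, map_smul])
      (fun x y₁ y₂ => by rw [lie_add, map_add])
      (fun c x y => by rw [lie_smul, map_smul])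
  have hCinj : Function.Injective C := by
    refine (injective_iff_map_eq_zero _).mpr ?_
    intro x hx
    apply hξ x
    intro y
    exact LinearMap.congr_fun hx y
  have hCsurj : Function.Surjective C := by
    apply (LinearMap.injective_iff_surjective_of_finrank_eq_finrank _).mp hCinj
    rw [finrank_linearMap, finrank_self, mul_one]
  obtain ⟨l, hl⟩ := adq.exists_leftInverse_of_injective (LinearMap.ker_eq_bot.mpr hadq)
  have hBsurj : LinearMap.range B = ⊤ := by
    rw [LinearMap.range_eq_top]
    intro m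
    obtain ⟨x, hx⟩ := hCsurj (m ∘ₗ l)
    refine ⟨x, ?_⟩
    apply LinearMap.ext
    intro y
    have h1 := LinearMap.congr_fun hx (adq y)
    have h2 : l (adq y) = y := LinearMap.congr_fun hl y
    rw [LinearMap.comp_apply, h2] at h1
    exact h1
  have hrank := LinearMap.finrank_range_add_finrank_ker B
  rw [hBsurj, finrank_top, finrank_linearMap, finrank_self, mul_one] at hrank
  -- the stabiliser embeds in the kernel
  have hsmem : ∀ x : stab (formM η), adq ⟨x.1, (mem_stab x.2).1⟩ ∈ LinearMap.ker B := by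
    intro x
    rw [LinearMap.mem_ker]
    apply LinearMap.ext
    intro y
    rw [hB, hkey]
    exact trace_zero_of_stab (mem_stab x.2).2 (mem_bor.mp y.2).1
  let S : stab (formM η) →ₗ[K] LinearMap.ker B :=
    { toFun := fun x => ⟨adq ⟨x.1, (mem_stab x.2).1⟩, hsmem x⟩
      map_add' := fun x y => Subtype.ext (Subtype.ext (map_add Ad _ _))
      map_smul' := fun c x => Subtype.ext (Subtype.ext (map_smul Ad _ _)) }
  have hS : Function.Injective S := by
    intro x y h
    have h1 : adq ⟨x.1, (mem_stab x.2).1⟩ = adq ⟨y.1, (mem_stab y.2).1⟩ :=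
      congrArg Subtype.val h
    have h2 := hadq h1
    exact Subtype.ext
      (congrArg (fun z : bor K n => (z : Matrix (Fin n) (Fin n) K)) h2)
  have h1 := LinearMap.finrank_le_finrank_of_injective hS
  have h2 := stab_finrank_ge (formM η)
  have h3 := up_finrank_ge K n
  have h4 : finrank K (up K n) ≤ finrank K (bor K n) + 1 := finrank_le_inf_ker _ _
  have h5 : finrank K q = finrank K q.toSubmodule := rfl
  omega

end Pool.Agent.Q296.FP
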