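import Pool.Agent.Q296.FP.Kill2
import Pool.Agent.Q296.FP.Cent

/-!
# The path matrix: ranks, its centraliser, and the path parabolic
-/

namespace Pool.Agent.Q296.FP

open Module

variable {K : Type*} [Field K] {n : ℕ}

/-! ### Ranks -/

lemma rank_toLin' (A : Matrix (Fin n) (Fin n) K) :
    finrank K (LinearMap.range (Matrix.toLin' A)) = A.rank := by
  rw [Matrix.toLin'_apply']
  rfl

lemma rank_ne_zero {A : Matrix (Fin n) (Fin n) K} (h : A ≠ 0) : A.rank ≠ 0 := by
  intro h0
  apply h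
  have h1 : LinearMap.range (Matrix.toLin' A) = ⊥ :=
    Submodule.finrank_eq_zero.mp (by rw [rank_toLin']; exact h0)
  rw [LinearMap.range_eq_bot] at h1
  exact (LinearEquiv.map_eq_zero_iff _).mp h1

lemma sum_ind (P : Fin n → Prop) [DecidablePred P] (a : ℕ) (ha : a < n)
    (h : ∀ l : Fin n, P l ↔ (l : ℕ) = a) : (∑ l : Fin n, if P l then (1 : K) else 0) = 1 := by
  rw [Finset.sum_eq_single (⟨a, ha⟩ : Fin n)]
  · rw [if_pos ((h _).mpr rfl)]
  · intro b _ hb
    rw [if_neg]
    intro hP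
    exact hb (Fin.ext ((h b).mp hP))
  · intro hh
    exact absurd (Finset.mem_univ _) hh

lemma eMat_sq : eMat K n * eMat K n =
    Matrix.vecMulVec (fun s : Fin n => if (s : ℕ) % 4 = 2 then (1 : K) else 0)
      (fun l : Fin n => if (l : ℕ) % 4 = 0 then (1 : K) else 0) := by
  ext s l
  rw [Matrix.mul_apply, Matrix.vecMulVec_apply]
  have hs := s.isLt
  have hl := l.isLt
  have key : ∀ t : Fin n, eMat K n s t * eMat K n t l = if E s t ∧ E t l then 1 else 0 := by
    intro t
    by_cases h1 : E s t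
    · by_cases h2 : E t l
      · rw [eMat_pos h1, eMat_pos h2, if_pos ⟨h1, h2⟩, one_mul]
      · rw [eMat_neg h2, mul_zero, if_neg (fun h => h2 h.2)]
    · rw [eMat_neg h1, zero_mul, if_neg (fun h => h1 h.1)]
  simp only [key]
  by_cases h1 : (s : ℕ) % 4 = 2
  · by_cases h2 : (l : ℕ) % 4 = 0
    · rw [if_pos h1, if_pos h2, mul_one]
      by_cases h3 : (l : ℕ) < s
      · apply sum_ind _ (l + 1) (by omega)
        intro t
        unfold E
        omega
      · apply sum_ind _ (s + 1) (by omega)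
        intro t
        unfold E
        omega
    · rw [if_neg h2, mul_zero]
      apply Finset.sum_eq_zero
      intro t _
      rw [if_neg]
      unfold E
      omega
  · rw [if_neg h1, zero_mul]
    apply Finset.sum_eq_zero
    intro t _
    rw [if_neg]
    unfold E
    omega

lemma eMat_cube : eMat K n * eMat K n * eMat K n = 0 := by
  rw [eMat_sq]
  ext s l
  rw [Matrix.mul_apply, Matrix.zero_apply]
  apply Finset.sum_eq_zero
  intro t _
  rw [Matrix.vecMulVec_apply]
  by_cases h1 : (t : ℕ) % 4 = 0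
  · have : ¬ E t l := by unfold E; omega
    rw [eMat_neg this, mul_zero]
  · rw [if_neg h1, mul_zero, zero_mul]

lemma eMat_sq_ne (hn : 3 ≤ n) : eMat K n * eMat K n ≠ 0 := by
  intro h
  have h1 := congrFun (congrFun h ⟨2, by omega⟩) ⟨0, by omega⟩
  rw [eMat_sq, Matrix.vecMulVec_apply] at h1
  simp at h1

lemma eMat_sq_rank (hn : 3 ≤ n) : (eMat K n * eMat K n).rank = 1 := by
  apply le_antisymm
  · rw [eMat_sq]
    exact Matrix.rank_vecMulVec_le _ _
  · rw [Nat.one_le_iff_ne_zero]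
    exact rank_ne_zero (eMat_sq_ne hn)

/-- left factor -/
def facL (K : Type*) [Field K] (n : ℕ) : Matrix (Fin n) (Fin ((n + 1) / 2)) K :=
  fun s a => if ((a : ℕ) % 2 = 0 ∧ E s (2 * a)) ∨ ((a : ℕ) % 2 = 1 ∧ (s : ℕ) = 2 * a)
    then 1 else 0

/-- right factor -/
def facR (K : Type*) [Field K] (n : ℕ) : Matrix (Fin ((n + 1) / 2)) (Fin n) K :=
  fun a l => if ((a : ℕ) % 2 = 0 ∧ (l : ℕ) = 2 * a) ∨
    ((a : ℕ) % 2 = 1 ∧ (((l : ℕ) % 4 = 1 ∧ (l : ℕ) < 2 * a) ∨ (l : ℕ) = 2 * a + 1)) then 1 else 0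

lemma eMat_eq_fac : eMat K n = facL K n * facR K n := by
  ext s l
  rw [Matrix.mul_apply]
  have hs := s.isLt
  have hl := l.isLt
  have key : ∀ a : Fin ((n + 1) / 2), facL K n s a * facR K n a l =
      if (((a : ℕ) % 2 = 0 ∧ E s (2 * a)) ∨ ((a : ℕ) % 2 = 1 ∧ (s : ℕ) = 2 * a)) ∧
        (((a : ℕ) % 2 = 0 ∧ (l : ℕ) = 2 * a) ∨
    ((a : ℕ) % 2 = 1 ∧ (((l : ℕ) % 4 = 1 ∧ (l : ℕ) < 2 * a) ∨ (l : ℕ) = 2 * a + 1)))
        then 1 else 0 := by
    intro a
    unfold facL facR
    split_ifs <;> simp_all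
  simp only [key]
  by_cases hE : E s l
  · rw [eMat_pos hE]
    symm
    by_cases h0 : (l : ℕ) % 4 = 0
    · apply sum_ind _ (l / 2) (by omega)
      intro a
      unfold E at hE ⊢
      omega
    · apply sum_ind _ (s / 2) (by unfold E at hE; omega)
      intro a
      unfold E at hE ⊢
      omega
  · rw [eMat_neg hE]
    symm
    apply Finset.sum_eq_zero
    intro a _
    rw [if_neg]
    unfold E at hE ⊢
    omega

lemma eMat_rank_le : (eMat K n).rank ≤ (n + 1) / 2 := by
  rw [eMat_eq_fac]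
  refine le_trans (Matrix.rank_mul_le_right _ _) ?_
  have := Matrix.rank_le_card_height (facR K n)
  simpa using this

/-! ### The centraliser -/

/-- matrices commuting with `e` -/
def centM (e : Matrix (Fin n) (Fin n) K) : Submodule K (Matrix (Fin n) (Fin n) K) where
  carrier := {y | e * y = y * e}
  add_mem' := by
    intro a b ha hb
    simp only [Set.mem_ofPred_eq] at *
    rw [mul_add, add_mul, ha, hb]
  zero_mem' := by simp
  smul_mem' := by
    intro c a ha
    simp only [Set.mem_ofPred_eq] at *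
    rw [mul_smul_comm, smul_mul_assoc, ha]

lemma mem_centM {e y : Matrix (Fin n) (Fin n) K} : y ∈ centM e ↔ e * y = y * e := Iff.rfl

lemma centM_finrank_ge (e : Matrix (Fin n) (Fin n) K) (h2 : e * e ≠ 0) :
    (n - e.rank) ^ 2 + (e.rank - (e * e).rank) ^ 2 + 1 ≤ finrank K (centM e) := by
  have h := cent_finrank_ge (Matrix.toLin' e) (by
    rw [← Matrix.toLin'_mul]
    intro hh
    exact h2 ((LinearEquiv.map_eq_zero_iff _).mp hh))
  rw [← Matrix.toLin'_mul, rank_toLin', rank_toLin', finrank_fin_fun] at h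
  refine le_trans h (le_of_eq ?_)
  symm
  apply LinearEquiv.finrank_eq
  refine (Matrix.toLin' (R := K) (m := Fin n) (n := Fin n)).submoduleMap (centM e) |>.trans
    (LinearEquiv.ofEq _ _ ?_)
  ext y
  constructor
  · rintro ⟨z, hz, rfl⟩
    rw [mem_cent]
    have : e * z = z * e := hz
    rw [LinearEquiv.coe_coe, ← Matrix.toLin'_mul, ← Matrix.toLin'_mul, this]
  · intro hy
    rw [mem_cent] at hy
    refine ⟨LinearMap.toMatrix' y, ?_, by simp⟩
    have h3 := congrArg LinearMap.toMatrix' hy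
    rw [LinearMap.toMatrix'_comp, LinearMap.toMatrix'_comp, LinearMap.toMatrix'_toLin'] at h3
    exact h3

end Pool.Agent.Q296.FP
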