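import Pool.Agent.Q296.FP.Path

/-!
# The path parabolic and the centraliser are complementary up to scalars
-/

namespace Pool.Agent.Q296.FP

open Module

variable {K : Type*} [Field K] {n : ℕ}

/-- the path parabolic in `gl_n` -/
def parM (K : Type*) [Field K] (n : ℕ) : Submodule K (Matrix (Fin n) (Fin n) K) where
  carrier := {x | ∀ s t : Fin n, blk n t < blk n s → x s t = 0}
  add_mem' := by
    intro a b ha hb s t h
    rw [Matrix.add_apply, ha s t h, hb s t h, add_zero]
  zero_mem' := by
    intro s t _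
    rfl
  smul_mem' := by
    intro c a ha s t h
    rw [Matrix.smul_apply, ha s t h, smul_zero]

lemma mem_parM {x : Matrix (Fin n) (Fin n) K} :
    x ∈ parM K n ↔ ∀ s t : Fin n, blk n t < blk n s → x s t = 0 := Iff.rfl

lemma card_eq_ge (n : ℕ) : n + 2 * ((n - 1) / 2) ≤
    (Finset.univ.filter (fun p : Fin n × Fin n => blk n p.1 = blk n p.2)).card := by
  have hlt1 : ∀ i : Fin ((n - 1) / 2), 2 * (i : ℕ) + 1 < n := fun i => by
    have := i.isLt
    omega
  have hlt2 : ∀ i : Fin ((n - 1) / 2), 2 * (i : ℕ) + 2 < n := fun i => by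
    have := i.isLt
    omega
  have hb : ∀ i : ℕ, 2 * i + 2 < n → blk n (2 * i + 1) = blk n (2 * i + 2) := by
    intro i hi
    unfold blk
    by_cases h : i % 2 = 0
    · rw [if_neg (by omega), if_neg (by omega)]
      omega
    · rw [if_pos (by omega), if_pos (by omega)]
      omega
  let F : Fin n ⊕ (Fin ((n - 1) / 2) ⊕ Fin ((n - 1) / 2)) → Fin n × Fin n := fun z =>
    match z with
    | Sum.inl s => (s, s)
    | Sum.inr (Sum.inl i) => (⟨2 * i + 1, hlt1 i⟩, ⟨2 * i + 2, hlt2 i⟩)
    | Sum.inr (Sum.inr i) => (⟨2 * i + 2, hlt2 i⟩, ⟨2 * i + 1, hlt1 i⟩)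
  have hF : Function.Injective F := by
    intro z w h
    rcases z with z | z | z <;> rcases w with w | w | w <;>
      simp only [F, Prod.mk.injEq, Fin.ext_iff] at h
    · congr 1
      exact Fin.ext h.1
    · omega
    · omega
    · omega
    · congr 2
      exact Fin.ext (by omega)
    · omega
    · omega
    · omega
    · congr 2
      exact Fin.ext (by omega)
  have hc : Fintype.card (Fin n ⊕ (Fin ((n - 1) / 2) ⊕ Fin ((n - 1) / 2))) ≤
      (Finset.univ.filter (fun p : Fin n × Fin n => blk n p.1 = blk n p.2)).card := by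
    rw [← Finset.card_univ]
    apply Finset.card_le_card_of_injOn F
    · intro z _
      rw [Finset.mem_coe, Finset.mem_filter]
      refine ⟨Finset.mem_univ _, ?_⟩
      rcases z with z | z | z
      · rfl
      · exact hb _ (hlt2 z)
      · exact (hb _ (hlt2 z)).symm
    · exact hF.injOn
  rw [Fintype.card_sum, Fintype.card_sum, Fintype.card_fin, Fintype.card_fin] at hc
  omega

lemma card_le_ge (n : ℕ) : n * n + (n + 2 * ((n - 1) / 2)) ≤
    2 * (Finset.univ.filter (fun p : Fin n × Fin n => blk n p.1 ≤ blk n p.2)).card := by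
  have h1 : (Finset.univ.filter (fun p : Fin n × Fin n => blk n p.1 < blk n p.2)).card =
      (Finset.univ.filter (fun p : Fin n × Fin n => blk n p.2 < blk n p.1)).card := by
    apply Finset.card_bij (fun p _ => (p.2, p.1))
    · intro p hp
      rw [Finset.mem_filter] at hp ⊢
      exact ⟨Finset.mem_univ _, hp.2⟩
    · intro p _ q _ h
      rw [Prod.mk.injEq] at h
      exact Prod.ext h.2 h.1
    · intro p hp
      rw [Finset.mem_filter] at hp
      exact ⟨(p.2, p.1), by rw [Finset.mem_filter]; exact ⟨Finset.mem_univ _, hp.2⟩, rfl⟩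
  have h2 : (Finset.univ.filter (fun p : Fin n × Fin n => blk n p.1 ≤ blk n p.2)).card =
      (Finset.univ.filter (fun p : Fin n × Fin n => blk n p.1 < blk n p.2)).card +
        (Finset.univ.filter (fun p : Fin n × Fin n => blk n p.1 = blk n p.2)).card := by
    rw [← Finset.card_union_of_disjoint]
    · congr 1
      ext p
      simp only [Finset.mem_filter, Finset.mem_union, Finset.mem_univ, true_and]
      omega
    · rw [Finset.disjoint_filter]
      intro p _ h3 h4
      omega
  have h3 : (Finset.univ.filter (fun p : Fin n × Fin n => blk n p.1 ≤ blk n p.2)).card +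
      (Finset.univ.filter (fun p : Fin n × Fin n => blk n p.2 < blk n p.1)).card = n * n := by
    rw [← Finset.card_union_of_disjoint]
    · rw [← Finset.filter_or, Finset.filter_true_of_mem, Finset.card_univ, Fintype.card_prod,
        Fintype.card_fin]
      intro p _
      omega
    · rw [Finset.disjoint_filter]
      intro p _ h3 h4
      omega
  have h4 := card_eq_ge n
  omega

lemma parM_finrank_ge (K : Type*) [Field K] (n : ℕ) :
    (Finset.univ.filter (fun p : Fin n × Fin n => blk n p.1 ≤ blk n p.2)).card ≤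
      finrank K (parM K n) := by
  let S := {p : Fin n × Fin n // blk n p.1 ≤ blk n p.2}
  let Φ : (S → K) →ₗ[K] Matrix (Fin n) (Fin n) K :=
    { toFun := fun c s t => if h : blk n s ≤ blk n t then c ⟨(s, t), h⟩ else 0
      map_add' := by
        intro c d
        ext s t
        by_cases h : blk n s ≤ blk n t
        · simp [h]
        · simp [h]
      map_smul' := by
        intro a c
        ext s t
        by_cases h : blk n s ≤ blk n t
        · simp [h]
        · simp [h] }
  have hmem : ∀ c, Φ c ∈ parM K n := by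
    intro c s t h
    exact dif_neg (not_le.mpr h)
  have hinj : Function.Injective (Φ.codRestrict (parM K n) hmem) := by
    intro c d h
    have h1 : Φ c = Φ d := congrArg Subtype.val h
    ext ⟨⟨s, t⟩, hst⟩
    have h2 := congrFun (congrFun h1 s) t
    have h3 : ∀ c, Φ c s t = c ⟨(s, t), hst⟩ := fun c => dif_pos hst
    rw [h3, h3] at h2
    exact h2
  have h := LinearMap.finrank_le_finrank_of_injective hinj
  rw [Module.finrank_fintype_fun_eq_card, Fintype.card_subtype] at h
  exact h

lemma arith1 (n : ℕ) (hn : 3 ≤ n) (P : ℕ) (h : n * n + (n + 2 * ((n - 1) / 2)) ≤ 2 * P) :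
    n * n ≤ P + (n / 2) ^ 2 + ((n + 1) / 2 - 1) ^ 2 := by
  obtain ⟨c, hc⟩ : ∃ c, c = n / 2 := ⟨_, rfl⟩
  obtain ⟨d, hd⟩ : ∃ d, d = (n + 1) / 2 - 1 := ⟨_, rfl⟩
  have h1 : (n - 1) / 2 = d := by omega
  have h2 : n = c + d + 1 := by omega
  have h3 : d + 1 = c ∨ d = c := by omega
  rw [← hc, ← hd]
  rw [h1] at h
  rw [h2] at h ⊢
  rcases h3 with h3 | h3
  · rw [← h3] at h ⊢
    nlinarith
  · rw [h3] at h ⊢
    nlinarith

lemma arith2 (n : ℕ) (hn : 3 ≤ n) (r : ℕ) (h1 : 1 ≤ r) (h2 : r ≤ (n + 1) / 2)
    (h : (n - r) ^ 2 + (r - 1) ^ 2 ≤ (n / 2) ^ 2 + ((n + 1) / 2 - 1) ^ 2) :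
    r = (n + 1) / 2 := by
  by_contra hne
  obtain ⟨c, hc⟩ : ∃ c, c = n / 2 := ⟨_, rfl⟩
  obtain ⟨u, hu⟩ : ∃ u, (n + 1) / 2 = r + u := ⟨(n + 1) / 2 - r, by omega⟩
  obtain ⟨v, hv⟩ : ∃ v, r = v + 1 := ⟨r - 1, by omega⟩
  have e1 : n - r = c + u := by omega
  have e2 : (n + 1) / 2 - 1 = v + u := by omega
  have e3 : r - 1 = v := by omega
  have hu0 : 1 ≤ u := by omega
  have hcv : v + u ≤ c := by omega
  rw [e1, e2, e3, ← hc] at h
  nlinarith

/-- The centraliser of `e` and the path parabolic: everything in `gl_n`. -/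
theorem path_main (K : Type*) [Field K] (hn : 3 ≤ n) :
    (eMat K n).rank = (n + 1) / 2 ∧
    centM (eMat K n) ⊓ parM K n = K ∙ (1 : Matrix (Fin n) (Fin n) K) ∧
    centM (eMat K n) ⊔ parM K n = ⊤ ∧
    finrank K (parM K n) + (n / 2) ^ 2 + ((n + 1) / 2 - 1) ^ 2 = n * n := by
  have hinf : centM (eMat K n) ⊓ parM K n = K ∙ (1 : Matrix (Fin n) (Fin n) K) := by
    apply le_antisymm
    · rintro x ⟨hx1, hx2⟩
      have hR : Reg x := by
        constructor
        · exact hx2
        · intro s t _
          rw [mem_centM.mp hx1]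
      obtain ⟨c, hc⟩ := hR.scalar
      rw [Submodule.mem_span_singleton]
      exact ⟨c, hc.symm⟩
    · rw [Submodule.span_singleton_le_iff_mem]
      refine ⟨?_, ?_⟩
      · change eMat K n * 1 = 1 * eMat K n
        rw [mul_one, one_mul]
      · intro s t h
        rw [Matrix.one_apply_ne]
        intro hst
        rw [hst] at h
        exact lt_irrefl _ h
  have h1ne : (1 : Matrix (Fin n) (Fin n) K) ≠ 0 := by
    intro h
    have := congrFun (congrFun h ⟨0, by omega⟩) ⟨0, by omega⟩
    simp at this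
  have hdim : finrank K (centM (eMat K n) ⊓ parM K n : Submodule K _) = 1 := by
    rw [hinf]
    exact finrank_span_singleton h1ne
  have hsum := Submodule.finrank_sup_add_finrank_inf_eq (centM (eMat K n)) (parM K n)
  rw [hdim] at hsum
  have htop : finrank K (Matrix (Fin n) (Fin n) K) = n * n := by
    rw [Module.finrank_matrix, Fintype.card_fin, Module.finrank_self, mul_one]
  have hle : finrank K (centM (eMat K n) ⊔ parM K n : Submodule K _) ≤ n * n := by
    rw [← htop]
    exact Submodule.finrank_le _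
  have hC := centM_finrank_ge (eMat K n) (eMat_sq_ne hn)
  rw [eMat_sq_rank hn] at hC
  have hP := arith1 n hn _ (le_trans (card_le_ge n) (Nat.mul_le_mul_left 2 (parM_finrank_ge K n)))
  have hr1 : 1 ≤ (eMat K n).rank := by
    rw [Nat.one_le_iff_ne_zero]
    apply rank_ne_zero
    intro h
    apply eMat_sq_ne (K := K) hn
    rw [h, mul_zero]
  have hr : (eMat K n).rank = (n + 1) / 2 := by
    apply arith2 n hn _ hr1 eMat_rank_le
    omega
  rw [hr] at hC
  have e1 : n - (n + 1) / 2 = n / 2 := by omega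
  rw [e1] at hC
  refine ⟨hr, hinf, ?_, by omega⟩
  apply Submodule.eq_top_of_finrank_eq
  rw [htop]
  omega

end Pool.Agent.Q296.FP
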