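import Mathlib

/-!
# The index of the Borel subalgebra: lower bound
-/

namespace Pool.Agent.Q296.FP

open Module

variable {K : Type*} [Field K]

/-- Semicontinuity of the rank along a line. -/
lemma exists_rank_ge [Infinite K] {V W : Type*} [AddCommGroup V] [Module K V]
    [FiniteDimensional K V] [AddCommGroup W] [Module K W] [FiniteDimensional K W]
    (A B : V →ₗ[K] W) :
    ∃ t : K, t ≠ 0 ∧ finrank K (LinearMap.range A) ≤ finrank K (LinearMap.range (A + t • B)) := by
  obtain ⟨U, hU⟩ := A.rangeRestrict.exists_rightInverse_of_surjective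
    (LinearMap.range_eq_top.mpr A.surjective_rangeRestrict)
  obtain ⟨p, hp⟩ := (LinearMap.range A).subtype.exists_leftInverse_of_injective
    (LinearMap.ker_eq_bot.mpr (Submodule.injective_subtype _))
  let C : Module.End K (LinearMap.range A) := p ∘ₗ B ∘ₗ U
  have hfin : (insert (0 : K) {μ | C.HasEigenvalue μ}).Finite :=
    (Module.End.finite_hasEigenvalue C).insert 0
  obtain ⟨μ, hμ⟩ := hfin.exists_notMem
  rw [Set.mem_insert_iff, not_or] at hμ
  obtain ⟨hμ0, hμ1⟩ := hμ
  refine ⟨-μ⁻¹, neg_ne_zero.mpr (inv_ne_zero hμ0), ?_⟩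
  have hinj : Function.Injective ((A + (-μ⁻¹) • B) ∘ₗ U) := by
    refine (injective_iff_map_eq_zero _).mpr ?_
    intro v hv
    have h1 : p ((A + (-μ⁻¹) • B) (U v)) = 0 := by
      have : (A + (-μ⁻¹) • B) (U v) = 0 := hv
      rw [this, map_zero]
    rw [LinearMap.add_apply, map_add, LinearMap.smul_apply, map_smul] at h1
    have h2 : p (A (U v)) = v := by
      have h3 := LinearMap.congr_fun hU v
      have h4 : A (U v) = (LinearMap.range A).subtype v := by
        simpa using congrArg Subtype.val h3
      rw [h4]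
      exact LinearMap.congr_fun hp v
    rw [h2] at h1
    have h5 : C v = μ • v := by
      have h6 : p (B (U v)) = C v := rfl
      rw [h6] at h1
      have h7 : μ • (v + -μ⁻¹ • C v) = 0 := by rw [h1, smul_zero]
      rw [smul_add, smul_smul, mul_neg, mul_inv_cancel₀ hμ0, neg_smul, one_smul,
        ← sub_eq_add_neg, sub_eq_zero] at h7
      exact h7.symm
    by_contra hv0
    exact hμ1 (Module.End.hasEigenvalue_of_hasEigenvector
      ⟨Module.End.mem_eigenspace_iff.mpr h5, hv0⟩)
  calc finrank K (LinearMap.range A) = finrank K (LinearMap.range ((A + (-μ⁻¹) • B) ∘ₗ U)) :=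
        (LinearMap.finrank_range_of_inj hinj).symm
    _ ≤ finrank K (LinearMap.range (A + (-μ⁻¹) • B)) :=
        Submodule.finrank_mono (LinearMap.range_comp_le_range _ _)

lemma exists_ker_le [Infinite K] {V W : Type*} [AddCommGroup V] [Module K V]
    [FiniteDimensional K V] [AddCommGroup W] [Module K W] [FiniteDimensional K W]
    (A B : V →ₗ[K] W) :
    ∃ t : K, t ≠ 0 ∧ finrank K (LinearMap.ker (A + t • B)) ≤ finrank K (LinearMap.ker A) := by
  obtain ⟨t, ht, h⟩ := exists_rank_ge A B
  refine ⟨t, ht, ?_⟩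
  have h1 := LinearMap.finrank_range_add_finrank_ker A
  have h2 := LinearMap.finrank_range_add_finrank_ker (A + t • B)
  omega

/-- upper triangular matrices -/
def up (K : Type*) [Field K] (n : ℕ) : Submodule K (Matrix (Fin n) (Fin n) K) where
  carrier := {x | ∀ i j : Fin n, j < i → x i j = 0}
  add_mem' := by
    intro a b ha hb i j h
    rw [Matrix.add_apply, ha i j h, hb i j h, add_zero]
  zero_mem' := fun _ _ _ => rfl
  smul_mem' := by
    intro c a ha i j h
    rw [Matrix.smul_apply, ha i j h, smul_zero]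

/-- the lower triangular part of `[f, x]` -/
def lowBr {n : ℕ} (f : Matrix (Fin n) (Fin n) K) : up K n →ₗ[K] Matrix (Fin n) (Fin n) K where
  toFun x := fun i j => if j ≤ i then (f * x.1 - x.1 * f) i j else 0
  map_add' := by
    intro x y
    ext i j
    by_cases h : j ≤ i
    · simp only [h, if_true, Submodule.coe_add, mul_add, add_mul, Matrix.sub_apply,
        Matrix.add_apply]
      ring
    · simp only [h, if_false, Matrix.add_apply, add_zero]
  map_smul' := by
    intro c x
    ext i j
    by_cases h : j ≤ i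
    · simp only [h, if_true, Submodule.coe_smul, mul_smul_comm, smul_mul_assoc, Matrix.sub_apply,
        Matrix.smul_apply, smul_eq_mul, RingHom.id_apply]
      ring
    · simp only [h, if_false, Matrix.smul_apply, smul_zero]

lemma mem_ker_lowBr {n : ℕ} {f : Matrix (Fin n) (Fin n) K} {x : up K n} :
    x ∈ LinearMap.ker (lowBr f) ↔ ∀ i j : Fin n, j ≤ i → (f * x.1 - x.1 * f) i j = 0 := by
  rw [LinearMap.mem_ker]
  constructor
  · intro h i j hij
    have h1 := congrFun (congrFun h i) j
    have h2 : (if j ≤ i then (f * x.1 - x.1 * f) i j else 0) = (0 : K) := h1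
    rwa [if_pos hij] at h2
  · intro h
    ext i j
    change (if j ≤ i then (f * x.1 - x.1 * f) i j else 0) = (0 : K)
    split_ifs with hij
    · exact h i j hij
    · rfl

lemma lowBr_add {n : ℕ} (f g : Matrix (Fin n) (Fin n) K) (t : K) :
    lowBr (f + t • g) = lowBr f + t • lowBr g := by
  apply LinearMap.ext
  intro x
  ext i j
  rw [LinearMap.add_apply, LinearMap.smul_apply, Matrix.add_apply, Matrix.smul_apply]
  change (if j ≤ i then ((f + t • g) * x.1 - x.1 * (f + t • g)) i j else 0) =
    (if j ≤ i then (f * x.1 - x.1 * f) i j else 0) +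
      t • (if j ≤ i then (g * x.1 - x.1 * g) i j else 0)
  by_cases h : j ≤ i
  · rw [if_pos h, if_pos h, if_pos h]
    simp only [add_mul, mul_add, mul_smul_comm, smul_mul_assoc, Matrix.sub_apply,
      Matrix.add_apply, Matrix.smul_apply, smul_eq_mul]
    ring
  · rw [if_neg h, if_neg h, if_neg h, smul_zero, add_zero]

/-- embedding of the middle indices -/
def mid {n : ℕ} (j : Fin n) : Fin (n + 2) := j.castSucc.succ

lemma fin_cases {n : ℕ} (i : Fin (n + 2)) : i = 0 ∨ i = Fin.last (n + 1) ∨ ∃ a : Fin n, i = mid a := by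
  induction i using Fin.cases with
  | zero => exact Or.inl rfl
  | succ i =>
    induction i using Fin.lastCases with
    | last => exact Or.inr (Or.inl rfl)
    | cast a => exact Or.inr (Or.inr ⟨a, rfl⟩)

lemma sum_mid {n : ℕ} (g : Fin (n + 2) → K) :
    ∑ i, g i = g 0 + ∑ a : Fin n, g (mid a) + g (Fin.last (n + 1)) := by
  rw [Fin.sum_univ_succ, Fin.sum_univ_castSucc]
  exact (add_assoc _ _ _).symm

lemma mid_ne_zero {n : ℕ} (a : Fin n) : mid a ≠ 0 := Fin.succ_ne_zero _

lemma mid_ne_last {n : ℕ} (a : Fin n) : mid a ≠ Fin.last (n + 1) := by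
  intro h
  have := congrArg Fin.val h
  simp [mid] at this
  have := a.isLt
  omega

lemma mid_inj {n : ℕ} {a b : Fin n} : mid a = mid b ↔ a = b := by
  constructor
  · intro h
    have := congrArg Fin.val h
    simp [mid] at this
    exact Fin.ext this
  · rintro rfl
    rfl

lemma mid_le {n : ℕ} {a b : Fin n} : mid a ≤ mid b ↔ a ≤ b := by
  simp [mid]

lemma mid_lt {n : ℕ} {a b : Fin n} : mid a < mid b ↔ a < b := by
  simp [mid]

end Pool.Agent.Q296.FP
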