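import Pool.Agent.Q296.FP.Semi

/-!
# The index of the Borel subalgebra: the induction
-/

namespace Pool.Agent.Q296.FP

open Module

variable {K : Type*} [Field K] {n : ℕ}

lemma finrank_sub_prod {V : Type*} [AddCommGroup V] [Module K V] [FiniteDimensional K V]
    (S : Submodule K V) : finrank K (S × K) = finrank K S + 1 := by
  rw [finrank_prod, finrank_self]

lemma finrank_sub_pos {V : Type*} [AddCommGroup V] [Module K V] [FiniteDimensional K V]
    (S : Submodule K V) {x : V} (hx : x ∈ S) (h : x ≠ 0) : 1 ≤ finrank K S := by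
  have h2 : (⟨x, hx⟩ : S) ≠ 0 := fun h3 => h (congrArg Subtype.val h3)
  have : Nontrivial S := ⟨⟨_, _, h2⟩⟩
  have h4 : 0 < finrank K S := Module.finrank_pos
  exact h4

/-- left factor of the embedding -/
def embL (f : Matrix (Fin (n + 2)) (Fin (n + 2)) K) : Matrix (Fin (n + 2)) (Fin n) K :=
  fun i j => if i = 0 then -(f (Fin.last (n + 1)) (mid j)) / f (Fin.last (n + 1)) 0
    else if i = mid j then 1 else 0

/-- right factor of the embedding -/
def embR (f : Matrix (Fin (n + 2)) (Fin (n + 2)) K) : Matrix (Fin n) (Fin (n + 2)) K :=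
  fun j i => if i = Fin.last (n + 1) then -(f (mid j) 0) / f (Fin.last (n + 1)) 0
    else if i = mid j then 1 else 0

/-- the Schur complement -/
def schur (f : Matrix (Fin (n + 2)) (Fin (n + 2)) K) : Matrix (Fin n) (Fin n) K :=
  fun i j => f (mid i) (mid j) -
    f (mid i) 0 * f (Fin.last (n + 1)) (mid j) / f (Fin.last (n + 1)) 0

variable (f : Matrix (Fin (n + 2)) (Fin (n + 2)) K)

lemma zero_ne_last : (0 : Fin (n + 2)) ≠ Fin.last (n + 1) := by
  intro h
  have := congrArg Fin.val h
  simp at this

lemma embL_zero (j : Fin n) :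
    embL f 0 j = -(f (Fin.last (n + 1)) (mid j)) / f (Fin.last (n + 1)) 0 := if_pos rfl

lemma embL_mid (i j : Fin n) : embL f (mid i) j = if i = j then 1 else 0 := by
  unfold embL
  rw [if_neg (mid_ne_zero i)]
  simp only [mid_inj]

lemma embL_last (j : Fin n) : embL f (Fin.last (n + 1)) j = 0 := by
  unfold embL
  rw [if_neg (Ne.symm zero_ne_last), if_neg (Ne.symm (mid_ne_last j))]

lemma embR_zero (j : Fin n) : embR f j 0 = 0 := by
  unfold embR
  rw [if_neg zero_ne_last, if_neg (Ne.symm (mid_ne_zero j))]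

lemma embR_mid (i j : Fin n) : embR f j (mid i) = if i = j then 1 else 0 := by
  unfold embR
  rw [if_neg (mid_ne_last i)]
  simp only [mid_inj]

lemma embR_last (j : Fin n) :
    embR f j (Fin.last (n + 1)) = -(f (mid j) 0) / f (Fin.last (n + 1)) 0 := if_pos rfl

lemma fL_apply (i : Fin (n + 2)) (j : Fin n) : (f * embL f) i j =
    f i (mid j) - f i 0 * f (Fin.last (n + 1)) (mid j) / f (Fin.last (n + 1)) 0 := by
  rw [Matrix.mul_apply, sum_mid]
  simp only [embL_zero, embL_mid, embL_last, mul_ite, mul_one, mul_zero, Finset.sum_ite_eq',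
    Finset.mem_univ, if_true, add_zero]
  ring

lemma Rf_apply (j : Fin n) (k : Fin (n + 2)) : (embR f * f) j k =
    f (mid j) k - f (mid j) 0 * f (Fin.last (n + 1)) k / f (Fin.last (n + 1)) 0 := by
  rw [Matrix.mul_apply, sum_mid]
  simp only [embR_zero, embR_mid, embR_last, ite_mul, one_mul, zero_mul, Finset.sum_ite_eq',
    Finset.mem_univ, if_true, zero_add]
  ring

lemma LxR_mid (x : Matrix (Fin n) (Fin n) K) (a b : Fin n) :
    (embL f * x * embR f) (mid a) (mid b) = x a b := by
  rw [Matrix.mul_apply]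
  simp only [embR_mid, mul_ite, mul_one, mul_zero, Finset.sum_ite_eq, Finset.mem_univ, if_true]
  rw [Matrix.mul_apply]
  simp only [embL_mid, ite_mul, one_mul, zero_mul, Finset.sum_ite_eq, Finset.mem_univ, if_true]

lemma LxR_left (M : Matrix (Fin (n + 2)) (Fin n) K) (i : Fin (n + 2)) :
    (M * embR f) i 0 = 0 := by
  rw [Matrix.mul_apply]
  apply Finset.sum_eq_zero
  intro j _
  rw [embR_zero, mul_zero]

lemma LxR_last (M : Matrix (Fin n) (Fin (n + 2)) K) (k : Fin (n + 2)) :
    (embL f * M) (Fin.last (n + 1)) k = 0 := by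
  rw [Matrix.mul_apply]
  apply Finset.sum_eq_zero
  intro j _
  rw [embL_last, zero_mul]

variable {f}

lemma emb_up {x : Matrix (Fin n) (Fin n) K} (hx : x ∈ up K n) :
    embL f * x * embR f ∈ up K (n + 2) := by
  intro i j hij
  rcases fin_cases i with rfl | rfl | ⟨a, rfl⟩
  · exact absurd hij (Fin.not_lt_zero j)
  · rw [Matrix.mul_assoc, LxR_last]
  · rcases fin_cases j with rfl | rfl | ⟨b, rfl⟩
    · rw [LxR_left]
    · exact absurd hij (not_lt.mpr (Fin.le_last _))
    · rw [LxR_mid]
      exact hx a b (mid_lt.mp hij)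

lemma emb_com (hα : f (Fin.last (n + 1)) 0 ≠ 0) {x : Matrix (Fin n) (Fin n) K}
    (hx : ∀ i j : Fin n, j ≤ i → (schur f * x - x * schur f) i j = 0) (i j : Fin (n + 2))
    (hij : j ≤ i) :
    (f * (embL f * x * embR f) - (embL f * x * embR f) * f) i j = 0 := by
  have e1 : f * (embL f * x * embR f) = (f * embL f) * x * embR f := by
    simp only [Matrix.mul_assoc]
  have e2 : (embL f * x * embR f) * f = embL f * (x * (embR f * f)) := by
    simp only [Matrix.mul_assoc]
  rw [e1, e2, Matrix.sub_apply]
  have hR0 : ∀ k : Fin n, (embR f * f) k 0 = 0 := by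
    intro k
    rw [Rf_apply, mul_div_assoc, div_self hα, mul_one, sub_self]
  have hL0 : ∀ k : Fin n, (f * embL f) (Fin.last (n + 1)) k = 0 := by
    intro k
    rw [fL_apply, mul_comm, mul_div_assoc, div_self hα, mul_one, sub_self]
  have hcol : ∀ i, (embL f * (x * (embR f * f))) i 0 = 0 := by
    intro i
    rw [Matrix.mul_apply]
    apply Finset.sum_eq_zero
    intro k _
    rw [Matrix.mul_apply, Finset.sum_eq_zero, mul_zero]
    intro l _
    rw [hR0, mul_zero]
  have hrow : ∀ j, ((f * embL f) * x * embR f) (Fin.last (n + 1)) j = 0 := by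
    intro j
    rw [Matrix.mul_assoc, Matrix.mul_apply]
    apply Finset.sum_eq_zero
    intro k _
    rw [hL0, zero_mul]
  rcases fin_cases j with rfl | rfl | ⟨b, rfl⟩
  · rw [LxR_left, hcol, sub_zero]
  · have hi : i = Fin.last (n + 1) := le_antisymm (Fin.le_last _) hij
    rw [hi, hrow, LxR_last, sub_zero]
  · rcases fin_cases i with rfl | rfl | ⟨a, rfl⟩
    · exact absurd (le_antisymm hij (Fin.zero_le _)) (mid_ne_zero b)
    · rw [hrow, LxR_last, sub_zero]
    · have h1 : ((f * embL f) * x * embR f) (mid a) (mid b) = (schur f * x) a b := by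
        rw [Matrix.mul_apply]
        simp only [embR_mid, mul_ite, mul_one, mul_zero, Finset.sum_ite_eq, Finset.mem_univ,
          if_true]
        rw [Matrix.mul_apply, Matrix.mul_apply]
        apply Finset.sum_congr rfl
        intro k _
        rw [fL_apply]
        rfl
      have h2 : (embL f * (x * (embR f * f))) (mid a) (mid b) = (x * schur f) a b := by
        rw [Matrix.mul_apply]
        simp only [embL_mid, ite_mul, one_mul, zero_mul, Finset.sum_ite_eq, Finset.mem_univ,
          if_true]
        rw [Matrix.mul_apply, Matrix.mul_apply]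
        apply Finset.sum_congr rfl
        intro k _
        rw [Rf_apply]
        rfl
      rw [h1, h2, ← Matrix.sub_apply]
      exact hx a b (mid_le.mp hij)

lemma one_mem_up (n : ℕ) : (1 : Matrix (Fin n) (Fin n) K) ∈ up K n := by
  intro i j h
  exact Matrix.one_apply_ne (ne_of_gt h)

lemma step_ne (hα : f (Fin.last (n + 1)) 0 ≠ 0) :
    finrank K (LinearMap.ker (lowBr (schur f))) + 1 ≤ finrank K (LinearMap.ker (lowBr f)) := by
  let Ψ : (LinearMap.ker (lowBr (schur f)) × K) →ₗ[K] Matrix (Fin (n + 2)) (Fin (n + 2)) K :=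
    { toFun := fun t => embL f * (t.1.1 : Matrix (Fin n) (Fin n) K) * embR f + t.2 • 1
      map_add' := by
        intro s t
        simp only [Prod.fst_add, Prod.snd_add, Submodule.coe_add, Matrix.mul_add, Matrix.add_mul,
          add_smul]
        abel
      map_smul' := by
        intro c t
        simp only [Prod.smul_fst, Prod.smul_snd, Submodule.coe_smul, Matrix.mul_smul,
          Matrix.smul_mul, smul_add, smul_eq_mul, mul_smul, RingHom.id_apply] }
  have hup : ∀ t, Ψ t ∈ up K (n + 2) := fun t =>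
    Submodule.add_mem _ (emb_up t.1.1.2) (Submodule.smul_mem _ _ (one_mem_up _))
  have hker : ∀ t, (Ψ.codRestrict _ hup) t ∈ LinearMap.ker (lowBr f) := by
    intro t
    rw [mem_ker_lowBr]
    intro i j hij
    have h1 := emb_com hα (mem_ker_lowBr.mp t.1.2) i j hij
    have h2 : f * (Ψ t) - (Ψ t) * f = f * (embL f * (t.1.1 : Matrix (Fin n) (Fin n) K) * embR f) -
        (embL f * (t.1.1 : Matrix (Fin n) (Fin n) K) * embR f) * f := by
      change f * (embL f * (t.1.1 : Matrix (Fin n) (Fin n) K) * embR f + t.2 • 1) -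
        (embL f * (t.1.1 : Matrix (Fin n) (Fin n) K) * embR f + t.2 • 1) * f = _
      rw [mul_add, add_mul, mul_smul_comm, smul_mul_assoc, mul_one, one_mul, add_sub_add_right_eq_sub]
    change (f * (Ψ t) - (Ψ t) * f) i j = 0
    rw [h2]
    exact h1
  have hinj : Function.Injective (LinearMap.codRestrict (LinearMap.ker (lowBr f))
      (Ψ.codRestrict _ hup) hker) := by
    refine (injective_iff_map_eq_zero _).mpr ?_
    intro t ht
    have h0 : Ψ t = 0 := congrArg (fun z : LinearMap.ker (lowBr f) =>
      ((z : up K (n + 2)) : Matrix (Fin (n + 2)) (Fin (n + 2)) K)) ht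
    have h1 := congrFun (congrFun h0 0) 0
    have h2 : (embL f * (t.1.1 : Matrix (Fin n) (Fin n) K) * embR f) 0 0 +
        t.2 * (1 : Matrix (Fin (n + 2)) (Fin (n + 2)) K) 0 0 = 0 := h1
    rw [LxR_left, zero_add, Matrix.one_apply_eq, mul_one] at h2
    have h3 : (t.1.1 : Matrix (Fin n) (Fin n) K) = 0 := by
      ext a b
      have h4 := congrFun (congrFun h0 (mid a)) (mid b)
      have h5 : (embL f * (t.1.1 : Matrix (Fin n) (Fin n) K) * embR f) (mid a) (mid b) +
        t.2 * (1 : Matrix (Fin (n + 2)) (Fin (n + 2)) K) (mid a) (mid b) = 0 := h4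
      rw [h2, zero_mul, add_zero, LxR_mid] at h5
      exact h5
    ext1
    · apply Subtype.ext
      apply Subtype.ext
      exact h3
    · exact h2
  have h := LinearMap.finrank_le_finrank_of_injective hinj
  have h2 : finrank K (LinearMap.ker (lowBr (schur f)) × K) =
      finrank K (LinearMap.ker (lowBr (schur f))) + 1 := finrank_sub_prod _
  rwa [h2] at h

theorem index_ge [Infinite K] : ∀ (n : ℕ) (f : Matrix (Fin n) (Fin n) K),
    (n + 1) / 2 ≤ finrank K (LinearMap.ker (lowBr f))
  | 0, f => by simp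
  | 1, f => by
    have h1 : (⟨1, one_mem_up 1⟩ : up K 1) ∈ LinearMap.ker (lowBr f) := by
      rw [mem_ker_lowBr]
      intro i j _
      simp
    refine finrank_sub_pos _ h1 ?_
    intro h
    have h3 : (1 : Matrix (Fin 1) (Fin 1) K) = 0 := congrArg Subtype.val h
    exact one_ne_zero h3
  | n + 2, f => by
    have key : ∀ g : Matrix (Fin (n + 2)) (Fin (n + 2)) K, g (Fin.last (n + 1)) 0 ≠ 0 →
        (n + 2 + 1) / 2 ≤ finrank K (LinearMap.ker (lowBr g)) := by
      intro g hg
      have h1 := index_ge n (schur g)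
      have h2 := step_ne hg
      omega
    by_cases hα : f (Fin.last (n + 1)) 0 = 0
    · obtain ⟨t, ht, h⟩ := exists_ker_le (lowBr f)
        (lowBr (Matrix.single (Fin.last (n + 1)) 0 (1 : K)))
      rw [← lowBr_add] at h
      refine le_trans (key _ ?_) h
      rw [Matrix.add_apply, hα, zero_add, Matrix.smul_apply, Matrix.single_apply_same]
      simpa using ht
    · exact key f hα

end Pool.Agent.Q296.FP
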